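import Pool.Agent.V5helper52.TU.Union

/-!
# Unions of two open subschemes
-/

set_option autoImplicit false
set_option maxHeartbeats 400000

open CategoryTheory AlgebraicGeometry Pool.Agent.Y116.UV Pool.Agent.Z125.UN Pool.Agent.V5helper52.SF

namespace Pool.Agent.V5helper52.TU

variable {k : Type} [Field k]

/-- Open subschemes are of finite type. -/
lemma ft_opens {X : Sch k} (hX : FT True X) (V : X.left.Opens) : FT True (opn X V) := by
  have h1 := hX.locallyOfFiniteType
  have h2 := hX.quasiCompact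
  have h3 : IsLocallyNoetherian (Spec (CommRingCat.of k)) := inferInstance
  have h4 : IsLocallyNoetherian X.left := LocallyOfFiniteType.isLocallyNoetherian X.hom
  have h5 : CompactSpace X.left := (quasiCompact_iff_compactSpace X.hom).mp h2
  have h6 : IsNoetherian X.left := { }
  exact ft_opn hX V (TopologicalSpace.NoetherianSpace.isCompact _)

variable {P : Sch k → Prop} (hP : Bnd True P)

include hP

/-- The union of two open subschemes. -/
theorem p_glue {X : Sch k} (hX : FT True X) (S U : X.left.Opens) (h1 : P (opn X S))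
    (h2 : P (opn X U)) (h3 : P (opn X (S ⊓ U))) : P (opn X (S ⊔ U)) := by
  let Y := opn X (S ⊔ U)
  let W : Y.left.Opens := (S ⊔ U).ι ⁻¹ᵁ S
  let Z := clo Y W
  let c : Z ⟶ Y := cloMap Y W
  have hc : Set.range c.left = (W : Set Y.left)ᶜ := range_cloMap Y W
  have hcc : IsClosedImmersion c.left := inferInstanceAs (IsClosedImmersion (cloMap Y W).left)
  have hSle : S ≤ S ⊔ U := le_sup_left
  have hUle : U ≤ S ⊔ U := le_sup_right
  refine hP.total c (opnLe X hSle) (ft_opens hX _) ⟨hcc, inferInstance, ?_⟩ ?_ h1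
  · rw [hc, range_opnLe]
    rfl
  -- the closed part is contained in `U`
  have hcU : ∀ z : Z.left, (S ⊔ U).ι (c.left z) ∈ U := by
    intro z
    have h4 : c.left z ∈ (W : Set Y.left)ᶜ := by
      rw [← hc]
      exact ⟨z, rfl⟩
    have h5 : (S ⊔ U).ι (c.left z) ∈ S ⊔ U := (c.left z).2
    rcases h5 with h5 | h5
    · exact absurd h5 h4
    · exact h5
  have hrange : Set.range (c.left ≫ (S ⊔ U).ι) ⊆ Set.range U.ι := by
    rw [Scheme.Opens.range_ι]
    rintro _ ⟨z, rfl⟩
    exact hcU z
  let l : Z.left ⟶ U.toScheme := IsOpenImmersion.lift U.ι (c.left ≫ (S ⊔ U).ι) hrange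
  have hl : l ≫ U.ι = c.left ≫ (S ⊔ U).ι := IsOpenImmersion.lift_fac _ _ _
  let h : Z ⟶ opn X U := Over.homMk l (by
    change l ≫ (U.ι ≫ X.hom) = (c.left ≫ Y.hom)
    rw [← Category.assoc, hl, Category.assoc]
    rfl)
  have hle : l ≫ X.left.homOfLE hUle = c.left := by
    rw [← cancel_mono (S ⊔ U).ι, Category.assoc, Scheme.homOfLE_ι, hl]
    rfl
  have hlc : IsClosedImmersion l := by
    have h6 : IsClosedImmersion (l ≫ X.left.homOfLE hUle) := by
      rw [hle]
      exact hcc
    exact IsClosedImmersion.of_comp l (X.left.homOfLE hUle)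
  refine hP.closed h (opnLe X (inf_le_right : S ⊓ U ≤ U)) (ft_opens hX _) ⟨hlc, inferInstance, ?_⟩
    h2 h3
  rw [range_opnLe]
  ext u
  constructor
  · rintro ⟨z, rfl⟩ hz
    have h4 : c.left z ∈ (W : Set Y.left)ᶜ := by
      rw [← hc]
      exact ⟨z, rfl⟩
    have h5 : U.ι (l z) = (S ⊔ U).ι (c.left z) := by
      have h6 := congrArg (fun f => f.base z) hl
      exact h6
    apply h4
    change (S ⊔ U).ι (c.left z) ∈ S
    rw [← h5]
    exact hz.1
  · intro hu
    have hu' : U.ι u ∉ S := fun h7 => hu ⟨h7, u.2⟩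
    have h4 : (X.left.homOfLE hUle u) ∈ (W : Set Y.left)ᶜ := by
      intro h5
      apply hu'
      have h6 : (S ⊔ U).ι (X.left.homOfLE hUle u) ∈ S := h5
      have h7 : (S ⊔ U).ι (X.left.homOfLE hUle u) = U.ι u := by
        have h8 := congrArg (fun f => f.base u) (Scheme.homOfLE_ι X.left hUle)
        exact h8
      rwa [h7] at h6
    rw [← hc] at h4
    obtain ⟨z, hz⟩ := h4
    refine ⟨z, ?_⟩
    change l z = u
    apply (X.left.homOfLE hUle).isOpenEmbedding.injective
    have h9 : (X.left.homOfLE hUle) (l z) = c.left z := by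
      have h10 := congrArg (fun f => f.base z) hle
      exact h10
    rw [h9, hz]

end Pool.Agent.V5helper52.TU
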