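import Pool.Agent.Z125.UN.NI

/-!
# Products with affine spaces and tori
-/

set_option autoImplicit false
set_option maxHeartbeats 400000

open Pool.Agent.Y116.UV Pool.Agent.Z125.UN

namespace Pool.Agent.V5helper52.TU

variable {k : Type} [Field k] {sep : Prop} {P : Sch k → Prop} (hP : Bnd sep P)

include hP

section

variable {A : Type} [CommRing A] [Algebra k A] [Algebra.FiniteType k A]

lemma p_polyX (h : P (aff k A)) : P (aff k (Polynomial A)) := by
  have h1 := p_poly hP PUnit.{1} h
  have : Algebra.FiniteType k (MvPolynomial PUnit.{1} A) :=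
    Algebra.FiniteType.trans (S := A) inferInstance inferInstance
  exact iso_alg hP.toUni ((MvPolynomial.uniqueAlgEquiv A PUnit.{1}).restrictScalars k) h1

lemma p_laurent (h : P (aff k A)) : P (aff k (LaurentPolynomial A)) := by
  have hft : Algebra.FiniteType k (Polynomial A) :=
    Algebra.FiniteType.trans (S := A) inferInstance inferInstance
  have h0 : ∀ x : Polynomial A, x ∈ RingHom.ker (Polynomial.aeval (0 : A) : Polynomial A →ₐ[A] A) ↔
      x ∈ Ideal.span {(Polynomial.X : Polynomial A)} := by
    intro x
    rw [RingHom.mem_ker, Ideal.mem_span_singleton, Polynomial.X_dvd_iff,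
      Polynomial.coe_aeval_eq_eval, ← Polynomial.coeff_zero_eq_eval_zero]
  have e1 : (Polynomial A ⧸ Ideal.span {(Polynomial.X : Polynomial A)}) ≃ₐ[A] A := by
    have hk : RingHom.ker (Polynomial.aeval (0 : A) : Polynomial A →ₐ[A] A) =
      Ideal.span {(Polynomial.X : Polynomial A)} := Ideal.ext h0
    rw [← hk]
    exact Ideal.quotientKerAlgEquivOfSurjective fun a => ⟨Polynomial.C a, Polynomial.aeval_C _ _⟩
  have h1 : P (aff k (Polynomial A ⧸ Ideal.span {(Polynomial.X : Polynomial A)})) :=
    iso_alg hP.toUni (e1.symm.restrictScalars k) h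
  have h2 := ring_open hP (Polynomial.X : Polynomial A) h1 (p_polyX hP h)
  have hft2 : Algebra.FiniteType k (Localization.Away (Polynomial.X : Polynomial A)) :=
    Algebra.FiniteType.trans (S := Polynomial A) inferInstance inferInstance
  have e2 : Localization.Away (Polynomial.X : Polynomial A) ≃ₐ[Polynomial A] LaurentPolynomial A :=
    IsLocalization.algEquiv (Submonoid.powers (Polynomial.X : Polynomial A)) _ _
  have : IsScalarTower k (Polynomial A) (LaurentPolynomial A) := by
    refine IsScalarTower.of_algebraMap_eq fun x => ?_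
    rw [LaurentPolynomial.algebraMap_eq_toLaurent]
    rw [Polynomial.algebraMap_apply, Polynomial.toLaurent_C]
    rfl
  exact iso_alg hP.toUni (e2.restrictScalars k) h2

end

theorem p_tor (b : ℕ) : ∀ (A : Type) [CommRing A] [Algebra k A] [Algebra.FiniteType k A],
    P (aff k A) → P (aff k (AddMonoidAlgebra A (Fin b → ℤ))) := by
  induction b with
  | zero =>
    intro A _ _ _ h
    exact iso_alg hP.toUni (AddMonoidAlgebra.uniqueAlgEquiv k (Fin 0 → ℤ)).symm h
  | succ b ih =>
    intro A _ _ _ h
    have h1 := ih A h
    have hft : Algebra.FiniteType k (AddMonoidAlgebra A (Fin b → ℤ)) :=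
      Algebra.FiniteType.trans (S := A) inferInstance inferInstance
    have h2 := p_laurent hP h1
    have hft2 : Algebra.FiniteType k (LaurentPolynomial (AddMonoidAlgebra A (Fin b → ℤ))) :=
      Algebra.FiniteType.trans (S := AddMonoidAlgebra A (Fin b → ℤ)) inferInstance inferInstance
    let e : ℤ × (Fin b → ℤ) ≃+ (Fin (b + 1) → ℤ) :=
      { toFun := fun x => Fin.cons x.1 x.2
        invFun := fun x => (x 0, Fin.tail x)
        left_inv := fun x => by
          ext i
          · rfl
          · rfl
        right_inv := fun x => Fin.cons_self_tail x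
        map_add' := fun x y => by
          ext i
          refine Fin.cases ?_ (fun j => ?_) i
          · rfl
          · rfl }
    exact iso_alg hP.toUni (((AddMonoidAlgebra.curryAlgEquiv k (A := A) (M := ℤ)
      (N := Fin b → ℤ)).symm).trans (AddMonoidAlgebra.domCongr k A e)) h2

end Pool.Agent.V5helper52.TU
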