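import Pool.Agent.V5helper52.SF.Compl
import Pool.Agent.Z125.UN.NI

/-!
# Unions of two closed or two open subschemes
-/

set_option autoImplicit false
set_option maxHeartbeats 400000

open CategoryTheory AlgebraicGeometry Pool.Agent.Y116.UV Pool.Agent.Z125.UN Pool.Agent.V5helper52.SF

namespace Pool.Agent.V5helper52.TU

variable {k : Type} [Field k] {P : Sch k → Prop} (hP : Bnd True P)

include hP

/-- The empty scheme. -/
lemma p_emp (E : Sch k) (hE : IsEmpty E.left) : P E := by
  have h1 := p_empty hP PUnit.{1} inferInstance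
  have h2 : Algebra.FiniteType k PUnit.{1} := inferInstance
  have h3 : IsEmpty (aff k PUnit.{1}).left :=
    inferInstanceAs (IsEmpty (PrimeSpectrum PUnit.{1}))
  refine hP.iso (ft_aff True) ⟨Over.isoMk ((isInitialOfIsEmpty (X := (aff k PUnit.{1}).left)).uniqueUpToIso
    (isInitialOfIsEmpty (X := E.left))) ?_⟩ h1
  exact (isInitialOfIsEmpty (X := (aff k PUnit.{1}).left)).hom_ext _ _

/-- Surjective closed immersions. -/
lemma p_nil {Z X : Sch k} (hX : FT True X) (i : Z ⟶ X) (hi : IsClosedImmersion i.left)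
    (hs : Function.Surjective i.left) (h : P Z) : P X := by
  have h1 : IsEmpty (opn X ⊥).left := by
    refine ⟨fun x => ?_⟩
    have h2 : (opnMap X ⊥).left x ∈ Set.range (opnMap X ⊥).left := ⟨x, rfl⟩
    rw [range_opnMap] at h2
    exact h2
  refine hP.total i (opnMap X ⊥) hX ⟨hi, inferInstance, ?_⟩ h (p_emp hP _ h1)
  rw [range_opnMap, hs.range_eq]
  exact Set.compl_empty.symm

/-- The union of two closed subschemes of an affine scheme. -/
theorem p_union {A : Type} [CommRing A] [Algebra k A] [Algebra.FiniteType k A] {I p J : Ideal A}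
    (hIp : I ≤ p) (hIJ : I ≤ J) (h : p ⊓ J ≤ I.radical) (hp : P (aff k (A ⧸ p)))
    (hJ : P (aff k (A ⧸ J))) (hpJ : P (aff k (A ⧸ (p ⊔ J)))) : P (aff k (A ⧸ I)) := by
  let X := aff k (A ⧸ I)
  let Y := aff k (A ⧸ J)
  let i1 : aff k (A ⧸ p) ⟶ X := affMap (Ideal.Quotient.factorₐ k hIp)
  let i2 : Y ⟶ X := affMap (Ideal.Quotient.factorₐ k hIJ)
  let i3 : aff k (A ⧸ (p ⊔ J)) ⟶ Y := affMap (Ideal.Quotient.factorₐ k le_sup_right)
  have hs1 : Function.Surjective (Ideal.Quotient.factorₐ k hIp) :=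
    Ideal.Quotient.factor_surjective hIp
  have hs2 : Function.Surjective (Ideal.Quotient.factorₐ k hIJ) :=
    Ideal.Quotient.factor_surjective hIJ
  have hs3 : Function.Surjective (Ideal.Quotient.factorₐ k (le_sup_right : J ≤ p ⊔ J)) :=
    Ideal.Quotient.factor_surjective le_sup_right
  have hc1 : IsClosedImmersion i1.left := closed_affMap _ hs1
  have hc2 : IsClosedImmersion i2.left := closed_affMap _ hs2
  have hc3 : IsClosedImmersion i3.left := closed_affMap _ hs3
  -- the ranges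
  have hr1 : ∀ x : PrimeSpectrum (A ⧸ I), x ∈ Set.range i1.left ↔
      ∀ a ∈ p, Ideal.Quotient.mk I a ∈ x.asIdeal := by
    intro x
    have h1 : Set.range i1.left = _ := range_affMap _ hs1
    rw [h1]
    constructor
    · intro h2 a ha
      exact h2 _ (Ideal.Quotient.eq_zero_iff_mem.mpr ha)
    · intro h2 a ha
      obtain ⟨a, rfl⟩ := Ideal.Quotient.mk_surjective a
      exact h2 a (Ideal.Quotient.eq_zero_iff_mem.mp ha)
  have hr2 : ∀ x : PrimeSpectrum (A ⧸ I), x ∈ Set.range i2.left ↔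
      ∀ a ∈ J, Ideal.Quotient.mk I a ∈ x.asIdeal := by
    intro x
    have h1 : Set.range i2.left = _ := range_affMap _ hs2
    rw [h1]
    constructor
    · intro h2 a ha
      exact h2 _ (Ideal.Quotient.eq_zero_iff_mem.mpr ha)
    · intro h2 a ha
      obtain ⟨a, rfl⟩ := Ideal.Quotient.mk_surjective a
      exact h2 a (Ideal.Quotient.eq_zero_iff_mem.mp ha)
  have hr3 : ∀ y : PrimeSpectrum (A ⧸ J), y ∈ Set.range i3.left ↔
      ∀ a ∈ p, Ideal.Quotient.mk J a ∈ y.asIdeal := by
    intro y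
    have h1 : Set.range i3.left = _ := range_affMap _ hs3
    rw [h1]
    constructor
    · intro h2 a ha
      exact h2 _ (Ideal.Quotient.eq_zero_iff_mem.mpr (Ideal.mem_sup_left ha))
    · intro h2 a ha
      obtain ⟨a, rfl⟩ := Ideal.Quotient.mk_surjective a
      obtain ⟨b, hb, c, hc, rfl⟩ := Submodule.mem_sup.mp (Ideal.Quotient.eq_zero_iff_mem.mp ha)
      rw [map_add, Ideal.Quotient.eq_zero_iff_mem.mpr hc, add_zero]
      exact h2 b hb
  have hcl : IsClosed (Set.range i1.left) := i1.left.isClosedEmbedding.isClosed_range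
  let V : X.left.Opens := ⟨(Set.range i1.left)ᶜ, hcl.isOpen_compl⟩
  have hft := ft_aff (R := k) (A := A ⧸ I) True
  have hT : IsTriple i1 (opnMap X V) := ⟨hc1, inferInstance, by
    rw [range_opnMap]
    exact (compl_compl _).symm⟩
  refine hP.total i1 (opnMap X V) hft hT hp ?_
  -- the open part of the other component
  let V' : Y.left.Opens := i2.left ⁻¹ᵁ V
  have hV' : IsTriple i3 (opnMap Y V') := ⟨hc3, inferInstance, by
    rw [range_opnMap]
    ext y
    have h1 : y ∈ (V' : Set Y.left)ᶜ ↔ i2.left y ∈ Set.range i1.left := by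
      change ¬ (¬ _) ↔ _
      rw [not_not]
    exact (hr3 y).trans ((hr1 (i2.left y)).symm.trans h1.symm)⟩
  have hPV' : P (opn Y V') := hP.opened i3 (opnMap Y V') (ft_aff True) hV' hpJ hJ
  let g : opn Y V' ⟶ opn X V := Over.homMk (i2.left ∣_ V) (by
    change (i2.left ∣_ V) ≫ (V.ι ≫ X.hom) = V'.ι ≫ Y.hom
    rw [← Category.assoc, morphismRestrict_ι, Category.assoc, Over.w i2])
  have hg : IsClosedImmersion g.left := inferInstanceAs (IsClosedImmersion (i2.left ∣_ V))
  refine p_nil hP (ft_open (opn X V) (opnMap X V) inferInstance) g hg ?_ hPV'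
  intro x
  have key : ∀ z : PrimeSpectrum (A ⧸ I), z ∉ Set.range i1.left → z ∈ Set.range i2.left := by
    intro z h1
    have h1' := mt (hr1 z).mpr h1
    push Not at h1'
    obtain ⟨a, ha, hax⟩ := h1'
    refine (hr2 z).mpr fun b hb => ?_
    have h2 : a * b ∈ I.radical := h ⟨Ideal.mul_mem_right _ _ ha, Ideal.mul_mem_left _ _ hb⟩
    obtain ⟨n, hn⟩ := h2
    have h3 : Ideal.Quotient.mk I (a * b) ∈ z.asIdeal := by
      apply z.isPrime.mem_of_pow_mem n
      rw [← map_pow, Ideal.Quotient.eq_zero_iff_mem.mpr hn]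
      exact zero_mem _
    rw [map_mul] at h3
    exact (z.isPrime.mem_or_mem h3).resolve_left hax
  obtain ⟨y, hy⟩ := key (V.ι x) x.2
  have hy' : y ∈ V' := by
    change i2.left y ∈ V
    rw [hy]
    exact x.2
  refine ⟨⟨y, hy'⟩, Subtype.ext ?_⟩
  have h4 : V.ι ((i2.left ∣_ V) ⟨y, hy'⟩) = i2.left y := morphismRestrict_base_coe _ _ _
  exact h4.trans hy

end Pool.Agent.V5helper52.TU
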