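import Pool.Agent.V5helper52.TU.Main

/-!
# The complexity of torus actions
-/

set_option autoImplicit false
set_option maxHeartbeats 400000

open MvPolynomial

namespace Pool.Agent.V5helper52.TU

variable {k A : Type} [Field k] [CommRing A] [Algebra k A]

/-- clearing denominators uniformly -/
lemma exists_clear {n : ℕ} (a b : Fin n → A) (F : MvPolynomial (Fin n) k) :
    ∃ (D : ℕ) (c : A), ∀ (q : Ideal A) [q.IsPrime], (∀ l, b l ∉ q) →
      φ (k := k) q c = aeval (fun l => φ (k := k) q (a l) / φ (k := k) q (b l)) F *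
        (∏ l, φ (k := k) q (b l)) ^ D := by
  classical
  induction F using MvPolynomial.induction_on with
  | C r =>
    refine ⟨0, algebraMap k A r, fun q _ _ => ?_⟩
    rw [aeval_C, pow_zero, mul_one, AlgHom.commutes]
  | add F1 F2 h1 h2 =>
    obtain ⟨D1, c1, h1⟩ := h1
    obtain ⟨D2, c2, h2⟩ := h2
    refine ⟨D1 + D2, c1 * (∏ l, b l) ^ D2 + c2 * (∏ l, b l) ^ D1, fun q _ hq => ?_⟩
    rw [map_add, map_mul, map_mul, h1 q hq, h2 q hq, map_add, map_pow, map_pow, map_prod]
    ring
  | mul_X F i h =>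
    obtain ⟨D, c, h⟩ := h
    refine ⟨D + 1, c * (a i * ∏ l ∈ Finset.univ.erase i, b l), fun q _ hq => ?_⟩
    have hb : φ (k := k) q (b i) ≠ 0 := fun h => hq i ((φ_zero k q _).mp h)
    rw [map_mul, map_mul, h q hq, map_mul, aeval_X, map_prod, pow_succ,
      ← Finset.mul_prod_erase Finset.univ (fun l => φ (k := k) q (b l)) (Finset.mem_univ i)]
    field_simp

variable {r m : ℕ} {𝒜 : (Fin r → ℤ) → Submodule k A} [GradedAlgebra 𝒜]
  {δ : Fin m → Derivation k A A}

/-- For torus actions the modality is the complexity. -/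
theorem modality_of_complexity (hm : m = 0) {n : ℕ} (h : ComplexityLE 𝒜 δ n) :
    ModalityLE 𝒜 δ n := by
  subst hm
  intro p hp _ x hx hind
  have hN : (⊥ : Ideal A) ≤ p := bot_le
  obtain ⟨q, hq, hqp⟩ := Ideal.exists_minimalPrimes_le hN
  have hqq : q.IsPrime := hq.1.1
  choose g a ha b hb hbp _ hxe using hx
  have hbq : ∀ l, b l ∉ q := fun l hl => hbp l (hqp hl)
  refine h q hq (fun l => φ (k := k) q (a l) / φ (k := k) q (b l)) (fun l =>
    ⟨g l, a l, ha l, b l, hb l, hbq l, fun i => i.elim0, rfl⟩) ?_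
  rw [algebraicIndependent_iff] at hind ⊢
  intro F hF
  apply hind
  obtain ⟨D, c, hc⟩ := exists_clear (k := k) a b F
  have h1 := hc q hbq
  rw [hF, zero_mul] at h1
  have h2 : c ∈ p := hqp ((φ_zero k q c).mp h1)
  have h3 := hc p hbp
  rw [(φ_zero k p c).mpr h2] at h3
  have h4 : (fun l => φ (k := k) p (a l) / φ (k := k) p (b l)) = x := by
    funext l
    exact (hxe l).symm
  rw [h4] at h3
  refine (mul_eq_zero.mp h3.symm).resolve_right (pow_ne_zero D ?_)
  exact Finset.prod_ne_zero_iff.mpr fun l _ h => hbp l ((φ_zero k p _).mp h)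

end Pool.Agent.V5helper52.TU
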