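import Pool.Agent.Y116.UV.Geo

/-!
# Actions of solvable groups on affine schemes
-/

set_option autoImplicit false

namespace Pool.Agent.V5helper52.TU

variable {k A G : Type} [Field k] [CommRing A] [Algebra k A] [AddCommGroup G] [DecidableEq G]
  {m : ℕ}

/-- A triangular family of homogeneous locally nilpotent derivations of a graded algebra: the
infinitesimal form of an action of a semidirect product of a torus (which acts through the grading)
and a unipotent group. -/
structure IsTriangular (𝒜 : G → Submodule k A) (δ : Fin m → Derivation k A A) : Prop where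
  homogeneous : ∀ i, ∃ e, ∀ g, ∀ a ∈ 𝒜 g, δ i a ∈ 𝒜 (g + e)
  nilpotent : ∀ i a, ∃ N : ℕ, ((δ i)^[N]) a = 0
  commutator : ∀ i j, i < j → ⁅δ j, δ i⁆ ∈ Submodule.span k (δ '' {l | l < i})

/-- Stable ideals are the homogeneous ideals which are preserved by the derivations. -/
def IsStable (𝒜 : G → Submodule k A) [GradedAlgebra 𝒜] (δ : Fin m → Derivation k A A)
    (I : Ideal A) : Prop :=
  I.IsHomogeneous 𝒜 ∧ ∀ i, ∀ a ∈ I, δ i a ∈ I

/-- An element of the field of fractions of `A / p` is invariant if it is a quotient `a / b` of
homogeneous elements of the same degree and is killed by the derivations. -/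
def IsInv (𝒜 : G → Submodule k A) (δ : Fin m → Derivation k A A) (p : Ideal A) [p.IsPrime]
    (x : FractionRing (A ⧸ p)) : Prop :=
  ∃ g, ∃ a ∈ 𝒜 g, ∃ b ∈ 𝒜 g, b ∉ p ∧ (∀ i, b * δ i a - a * δ i b ∈ p) ∧
    x = algebraMap (A ⧸ p) (FractionRing (A ⧸ p)) (Ideal.Quotient.mk p a) /
      algebraMap (A ⧸ p) (FractionRing (A ⧸ p)) (Ideal.Quotient.mk p b)

/-- The modality is at most `n`: for all stable prime ideals `p` the field of invariants of the
field of fractions of `A / p` has transcendence degree at most `n` over `k`. -/
def ModalityLE (𝒜 : G → Submodule k A) [GradedAlgebra 𝒜] (δ : Fin m → Derivation k A A)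
    (n : ℕ) : Prop :=
  ∀ (p : Ideal A) [p.IsPrime], IsStable 𝒜 δ p → ∀ x : Fin (n + 1) → FractionRing (A ⧸ p),
    (∀ l, IsInv 𝒜 δ p (x l)) → ¬ AlgebraicIndependent k x

/-- The complexity is at most `n`: for all minimal prime ideals `p` the field of invariants of the
field of fractions of `A / p` has transcendence degree at most `n` over `k`. -/
def ComplexityLE (𝒜 : G → Submodule k A) (δ : Fin m → Derivation k A A) (n : ℕ) : Prop :=
  ∀ (p : Ideal A) [p.IsPrime], p ∈ minimalPrimes A → ∀ x : Fin (n + 1) → FractionRing (A ⧸ p),
    (∀ l, IsInv 𝒜 δ p (x l)) → ¬ AlgebraicIndependent k x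

/-- An affine scheme `Spec A` of finite type over a field `k` with an action as above: a grading of
`A` and a triangular family of derivations of `A`, which is empty if the characteristic of `k` is not
zero. -/
structure Act (k : Type) [Field k] where
  A : Type
  [ring : CommRing A]
  [algebra : Algebra k A]
  [finiteType : Algebra.FiniteType k A]
  /-- the rank of the torus -/
  r : ℕ
  /-- the grading -/
  𝒜 : (Fin r → ℤ) → Submodule k A
  [graded : GradedAlgebra 𝒜]
  /-- the number of derivations -/
  m : ℕ
  /-- the derivations -/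
  δ : Fin m → Derivation k A A
  charZero : m = 0 ∨ CharZero k
  triangular : IsTriangular 𝒜 δ

attribute [instance] Act.ring Act.algebra Act.finiteType Act.graded

open CategoryTheory AlgebraicGeometry Pool.Agent.Y116.UV

/-- A finite covering of a scheme `X` over `k` by open subschemes `j i : U i ⟶ X`, each of which is
embedded by `ι i` as an open subscheme of an affine scheme `Spec A_i` with an action of modality at
most `n` (or of complexity at most `n`, if there are no derivations), such that for all `i` and `l`
the intersection of `U i` and `U l` is in `Spec A_i` the complement of the closed subset defined by a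
stable ideal. -/
structure StableAtlas {k : Type} [Field k] (X : Sch k) (n : ℕ) where
  /-- the number of charts -/
  N : ℕ
  /-- the actions -/
  a : Fin N → Act k
  modality : ∀ i, ModalityLE (a i).𝒜 (a i).δ n ∨ ((a i).m = 0 ∧ ComplexityLE (a i).𝒜 (a i).δ n)
  /-- the charts -/
  U : Fin N → Sch k
  /-- the inclusions of the charts -/
  j : ∀ i, U i ⟶ X
  /-- the embeddings of the charts -/
  ι : ∀ i, U i ⟶ aff k (a i).A
  open_j : ∀ i, IsOpenImmersion (j i).left
  open_ι : ∀ i, IsOpenImmersion (ι i).left
  cover : ∀ x : X.left, ∃ i, x ∈ Set.range (j i).left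
  stable : ∀ i l, ∃ I : Ideal (a i).A, IsStable (a i).𝒜 (a i).δ I ∧
    (ι i).left '' ((j i).left ⁻¹' Set.range (j l).left) =
      {x : PrimeSpectrum (a i).A | ∃ g ∈ I, g ∉ x.asIdeal}

end Pool.Agent.V5helper52.TU
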