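import Pool.Agent.V5helper52.TU.Units
import Pool.Agent.V5helper52.TU.Prod

/-!
# Generic structure of an action of a solvable group
-/

set_option autoImplicit false
set_option maxHeartbeats 400000

open Pool.Agent.Y116.UV Pool.Agent.Z125.UN

namespace Pool.Agent.V5helper52.TU

variable {k K G : Type} [Field k] [Field K] [Algebra k K] [AddCommGroup G]
  {W : G → Submodule k K}

/-- homogeneous derivations with triangular commutation relations -/
structure Tri (W : G → Submodule k K) (m : ℕ) (d : ℕ → Derivation k K K) : Prop where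
  hom : ∀ i < m, ∃ e, ∀ g, ∀ x ∈ W g, d i x ∈ W (g + e)
  comm : ∀ i j, i < j → j < m → ∃ c : ℕ → k, ∀ x, d j (d i x) - d i (d j x) =
    ∑ l ∈ Finset.range i, c l • d l x

/-- graded subalgebras on which the derivations are locally nilpotent -/
structure Good (W : G → Submodule k K) (m : ℕ) (d : ℕ → Derivation k K K) (S : Subalgebra k K) :
    Prop where
  fg : S.FG
  gr : Gr W S
  stable : ∀ i < m, ∀ x ∈ S, d i x ∈ S
  nil : ∀ i < m, ∀ x ∈ S, ∃ N : ℕ, ((d i)^[N]) x = 0

lemma iter_mem {S : Subalgebra k K} {δ : Derivation k K K} (hs : ∀ x ∈ S, δ x ∈ S) (N : ℕ) {x : K}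
    (hx : x ∈ S) : (δ^[N]) x ∈ S := by
  induction N with
  | zero => exact hx
  | succ N ih => rw [Function.iterate_succ_apply']; exact hs _ ih

lemma iter_hom {δ : Derivation k K K} (he : ∃ e, ∀ g, ∀ x ∈ W g, δ x ∈ W (g + e)) (N : ℕ) {x : K}
    (hx : ∃ g, x ∈ W g) : ∃ g, (δ^[N]) x ∈ W g := by
  obtain ⟨e, he⟩ := he
  induction N with
  | zero => exact hx
  | succ N ih =>
    rw [Function.iterate_succ_apply']
    obtain ⟨g, hg⟩ := ih
    exact ⟨_, he g _ hg⟩

lemma iter_comm {S : Subalgebra k K} {δ δ' : Derivation k K K} (hs : ∀ x ∈ S, δ x ∈ S)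
    (hc : ∀ x ∈ S, δ' (δ x) = δ (δ' x)) (N : ℕ) {x : K} (hx : x ∈ S) :
    δ' ((δ^[N]) x) = (δ^[N]) (δ' x) := by
  induction N with
  | zero => rfl
  | succ N ih =>
    rw [Function.iterate_succ_apply', hc _ (iter_mem hs N hx), ih, Function.iterate_succ_apply']

section

variable {m : ℕ} {d : ℕ → Derivation k K K} (hd : Tri W m d)

include hd

/-- `d j` commutes with the others if the previous ones vanish -/
lemma comm_of_zero {S : Subalgebra k K} (hS : Good W m d S) {j : ℕ} (hj : j < m)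
    (hz : ∀ i < j, ∀ x ∈ S, d i x = 0) {i : ℕ} (hi : i < m) (x : K) (hx : x ∈ S) :
    d j (d i x) = d i (d j x) := by
  rcases lt_trichotomy i j with h | h | h
  · rw [hz i h x hx, map_zero, hz i h _ (hS.stable j hj x hx)]
  · rw [h]
  · obtain ⟨c, hc⟩ := hd.comm j i h hi
    have h1 := hc x
    rw [Finset.sum_eq_zero] at h1
    · exact (sub_eq_zero.mp h1).symm
    · intro l hl
      rw [hz l (Finset.mem_range.mp hl) x hx, smul_zero]

/-- A slice of `d j`. -/
theorem exists_slice {S : Subalgebra k K} (hS : Good W m d S) {j : ℕ} (hj : j < m)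
    (hz : ∀ i < j, ∀ x ∈ S, d i x = 0) (h : ∃ x ∈ S, d j x ≠ 0) (i : ℕ) (hji : j ≤ i) :
    i ≤ m → ∃ s ∈ S, (∃ g, s ∈ W g) ∧ d j s ≠ 0 ∧ ∀ l < i, d l (d j s) = 0 := by
  induction i, hji using Nat.le_induction with
  | base =>
    intro _
    obtain ⟨x, hx, hx0⟩ := h
    obtain ⟨v, hv1, hv2, hv3⟩ := gr_comp hS.gr hx
    have h1 : ∃ g, d j (v g) ≠ 0 := by
      by_contra hcon
      push Not at hcon
      apply hx0
      rw [← hv3, map_sum]
      exact Finset.sum_eq_zero fun g _ => hcon g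
    obtain ⟨g, hg⟩ := h1
    exact ⟨v g, hv2 g, ⟨g, hv1 g⟩, hg, fun l hl => hz l hl _ (hS.stable j hj _ (hv2 g))⟩
  | succ i hji ih =>
    intro him
    obtain ⟨s, hs, hsW, hs0, hsl⟩ := ih (by omega)
    have him' : i < m := by omega
    set y := d j s with hy
    have hyS : y ∈ S := hS.stable j hj s hs
    have hex : ∃ N : ℕ, ((d i)^[N]) y = 0 := hS.nil i him' y hyS
    classical
    have hN := Nat.find_spec hex
    have hNm := fun M (hM : M < Nat.find hex) => Nat.find_min hex hM
    rcases hN0 : Nat.find hex with _ | N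
    · rw [hN0] at hN
      exact absurd hN hs0
    rw [hN0] at hN hNm
    have hcomm := iter_comm (hS.stable i him') (comm_of_zero hd hS hj hz him') N hs
    refine ⟨((d i)^[N]) s, iter_mem (hS.stable i him') N hs, iter_hom (hd.hom i him') N hsW, ?_, ?_⟩
    · rw [hcomm]
      exact hNm N (Nat.lt_succ_self N)
    · intro l hl
      rw [hcomm]
      rcases Nat.lt_succ_iff_lt_or_eq.mp hl with h1 | h1
      · -- the vectors killed by the previous derivations
        have key : ∀ M : ℕ, ∀ l < i, d l (((d i)^[M]) y) = 0 := by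
          intro M
          induction M with
          | zero => exact hsl
          | succ M ihM =>
            intro l hl
            rw [Function.iterate_succ_apply']
            obtain ⟨c, hc⟩ := hd.comm l i hl him'
            have h2 := hc (((d i)^[M]) y)
            rw [Finset.sum_eq_zero, ihM l hl, map_zero, zero_sub, neg_eq_zero] at h2
            · exact h2
            · intro p hp
              rw [ihM p ((Finset.mem_range.mp hp).trans hl), smul_zero]
        exact key N l h1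
      · rw [h1, ← Function.iterate_succ_apply' (d i)]
        exact hN

omit hd in
lemma good_loc (hW : Wts W) {S : Subalgebra k K} (hS : Good W m d S) {f : K} (hf : f ∈ S)
    (h0 : f ≠ 0) (hg : ∃ g, f ∈ W g) (hδ : ∀ i < m, d i f = 0) : Good W m d (loc S f hf) := by
  obtain ⟨g, hg⟩ := hg
  exact ⟨loc_fg S f hf h0 hS.fg, loc_gr hW hS.gr hf h0 hg,
    fun i hi => loc_stable hf (d i) (hδ i hi) (hS.stable i hi),
    fun i hi => loc_nil hf (d i) h0 (hδ i hi) (hS.nil i hi)⟩

omit [AddCommGroup G] hd in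
lemma der_inv (δ : Derivation k K K) {f : K} (h0 : f ≠ 0) (hδ : δ f = 0) : δ f⁻¹ = 0 := by
  have h1 : δ (f ^ 1 * f⁻¹) = f ^ 1 * δ f⁻¹ := der_pow_mul δ hδ 1 _
  rw [pow_one, mul_inv_cancel₀ h0, Derivation.map_one_eq_zero] at h1
  exact (mul_eq_zero.mp h1.symm).resolve_left h0

lemma good_cst [CharZero k] (hW : Wts W) {T : Subalgebra k K} (hT : Good W m d T) {j : ℕ}
    (hj : j < m) (hz : ∀ i < j, ∀ x ∈ T, d i x = 0) {σ : K} (hσ : σ ∈ T) (hσ1 : d j σ = 1) :
    Good W m d (cst (d j) T) := by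
  obtain ⟨e, he⟩ := hd.hom j hj
  refine ⟨slice_fg (d j) T σ hσ hσ1 (hT.nil j hj) (hT.stable j hj) hT.fg, cst_gr hW hT.gr (d j) he,
    ?_, fun i hi x hx => hT.nil i hi x hx.1⟩
  rintro i hi x ⟨hx1, hx2⟩
  refine ⟨hT.stable i hi x hx1, ?_⟩
  change d j (d i x) = 0
  rw [comm_of_zero hd hT hj hz hi x hx1, show d j x = 0 from hx2, map_zero]

end

/-- **Generic structure.** -/
theorem stage [Module.Free ℤ G] [Module.Finite ℤ G] (hW : Wts W) {m : ℕ}
    {d : ℕ → Derivation k K K} (hd : Tri W m d) (hchar : m = 0 ∨ CharZero k) {sep : Prop}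
    {P : Sch k → Prop} (hP : Bnd sep P)
    (hn : ∀ C : Subalgebra k K, C.FG → (∀ x ∈ C, x ∈ W 0 ∧ ∀ i < m, d i x = 0) → P (aff k C))
    (q : ℕ) : ∀ j, j + q = m → ∀ S : Subalgebra k K, Good W m d S →
      (∀ i < j, ∀ x ∈ S, d i x = 0) → ∃ (f : K) (hf : f ∈ S), f ≠ 0 ∧ (∃ g, f ∈ W g) ∧
        (∀ i < m, d i f = 0) ∧ P (aff k (loc S f hf)) := by
  induction q with
  | zero =>
    intro j hj S hS hz
    rw [add_zero] at hj
    subst hj
    obtain ⟨f, hf, h0, hfW, hT⟩ := exists_units hW hS.gr hS.fg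
    refine ⟨f, hf, h0, hfW, fun i hi => hz i hi f hf, ?_⟩
    obtain ⟨b, he⟩ := torus hW _ hT
    have hTfg := loc_fg S f hf h0 hS.fg
    have hCfg := deg0_fg hW hTfg he
    have hC : P (aff k (deg0 hW (loc S f hf))) := by
      refine hn _ hCfg fun x hx => ⟨hx.2, fun i hi => ?_⟩
      exact loc_zero hf (d i) h0 (hz i hi) x hx.1
    have hCft : Algebra.FiniteType k (deg0 hW (loc S f hf)) :=
      (Subalgebra.fg_iff_finiteType _).mp hCfg
    have h1 := p_tor hP b _ hC
    have hft : Algebra.FiniteType k (AddMonoidAlgebra (deg0 hW (loc S f hf)) (Fin b → ℤ)) :=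
      Algebra.FiniteType.trans (S := deg0 hW (loc S f hf)) inferInstance inferInstance
    obtain ⟨e⟩ := he
    exact iso_alg hP.toUni e.symm h1
  | succ q ih =>
    intro j hj S hS hz
    have hjm : j < m := by omega
    by_cases h : ∀ x ∈ S, d j x = 0
    · refine ih (j + 1) (by omega) S hS fun i hi => ?_
      rcases Nat.lt_succ_iff_lt_or_eq.mp hi with h1 | h1
      · exact hz i h1
      · rw [h1]; exact h
    · push Not at h
      have hch : CharZero k := hchar.resolve_left (by omega)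
      obtain ⟨s, hs, ⟨g, hsW⟩, hs0, hsl⟩ := exists_slice hd hS hjm hz h m hjm.le le_rfl
      set f := d j s with hfd
      have hf : f ∈ S := hS.stable j hjm s hs
      have hfW : ∃ g, f ∈ W g := by
        obtain ⟨e, he⟩ := hd.hom j hjm
        exact ⟨_, he g s hsW⟩
      have hT := good_loc hW hS hf hs0 hfW hsl
      have hzT : ∀ i < j, ∀ x ∈ loc S f hf, d i x = 0 := fun i hi =>
        loc_zero hf (d i) hs0 (hz i hi)
      have hσ : s * f⁻¹ ∈ loc S f hf := mul_mem (le_loc S f hf hs) (inv_loc S f hf hs0)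
      have hσ1 : d j (s * f⁻¹) = 1 := by
        rw [Derivation.leibniz, der_inv (d j) hs0 (hsl j hjm), smul_zero, zero_add, ← hfd,
          smul_eq_mul, inv_mul_cancel₀ hs0]
      have hB := good_cst hd hW hT hjm hzT hσ hσ1
      obtain ⟨g', hg', hg0, hgW, hgl, hgP⟩ := ih (j + 1) (by omega) _ hB (fun i hi x hx => by
        rcases Nat.lt_succ_iff_lt_or_eq.mp hi with h1 | h1
        · exact hzT i h1 x hx.1
        · rw [h1]; exact hx.2)
      obtain ⟨a, ha⟩ := hg'.1
      have hF : f * (f ^ a * g') ∈ S := mul_mem hf ha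
      refine ⟨f * (f ^ a * g'), hF, mul_ne_zero hs0 (mul_ne_zero (pow_ne_zero a hs0) hg0), ?_, ?_,
        ?_⟩
      · obtain ⟨e1, he1⟩ := hfW
        obtain ⟨e2, he2⟩ := hgW
        exact ⟨_, hW.mul he1 (hW.mul (w_pow hW he1 a) he2)⟩
      · intro i hi
        rw [show f * (f ^ a * g') = f ^ (a + 1) * g' by ring, der_pow_mul (d i) (hsl i hi),
          hgl i hi, mul_zero]
      · rw [loc_loc S f hf g' hg'.1 a ha]
        have hT2 := good_loc hW hT hg'.1 hg0 hgW hgl
        obtain ⟨e⟩ := slice (d j) (loc (loc S f hf) g' hg'.1) (s * f⁻¹)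
          (le_loc _ _ _ hσ) hσ1 (hT2.nil j hjm) (hT2.stable j hjm)
        rw [cst_loc (d j) _ g' hg0 hg'.1 hg'.2] at e
        have hft : Algebra.FiniteType k (loc (cst (d j) (loc S f hf)) g' hg') :=
          (Subalgebra.fg_iff_finiteType _).mp (loc_fg _ _ _ hg0 hB.fg)
        have h1 := p_polyX hP hgP
        have hft2 : Algebra.FiniteType k (Polynomial (loc (cst (d j) (loc S f hf)) g' hg')) :=
          Algebra.FiniteType.trans (S := loc (cst (d j) (loc S f hf)) g' hg') inferInstance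
            inferInstance
        exact iso_alg hP.toUni e.symm h1

end Pool.Agent.V5helper52.TU
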