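import Pool.Agent.V5helper52.TU.Defs
import Pool.Agent.V5helper52.TU.Frac
import Pool.Agent.V5helper52.SF.Main

/-!
# Stable prime ideals
-/

set_option autoImplicit false
set_option maxHeartbeats 400000

open Pool.Agent.Y116.UV Pool.Agent.Z125.UN Pool.Agent.V5helper52.SF

namespace Pool.Agent.V5helper52.TU

variable {k : Type} [Field k]

/-- The dimension is the maximal number of algebraically independent elements. -/
lemma dim_le_of {C : Type} [CommRing C] [Nontrivial C] [Algebra k C] [Algebra.FiniteType k C]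
    {n : ℕ} (h : ∀ x : Fin (n + 1) → C, ¬ AlgebraicIndependent k x) : ringKrullDim C ≤ n := by
  obtain ⟨s, g, hg, hint⟩ := exists_integral_inj_algHom_of_fg k C
  have hs : s ≤ n := by
    by_contra hcon
    have h1 : AlgebraicIndependent k (fun i : Fin s => g (MvPolynomial.X i)) := by
      rw [algebraicIndependent_iff_injective_aeval]
      have h2 : MvPolynomial.aeval (fun i : Fin s => g (MvPolynomial.X i)) = g := by
        apply MvPolynomial.algHom_ext
        intro i
        rw [MvPolynomial.aeval_X]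
      rw [h2]
      exact hg
    exact h _ (h1.comp (Fin.castLE (by omega : n + 1 ≤ s)) (Fin.castLE_injective _))
  let _ : Algebra (MvPolynomial (Fin s) k) C := g.toRingHom.toAlgebra
  have h3 : Algebra.IsIntegral (MvPolynomial (Fin s) k) C := ⟨hint⟩
  refine (dim_integral (A := MvPolynomial (Fin s) k) (B := C)).trans ?_
  rw [MvPolynomial.ringKrullDim_of_isNoetherianRing, ringKrullDim_eq_zero_of_field, zero_add,
    Nat.card_eq_fintype_card, Fintype.card_fin]
  exact_mod_cast hs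

variable {A : Type} [CommRing A] [Algebra k A] {G : Type} [AddCommGroup G]
  [DecidableEq G] (𝒜 : G → Submodule k A) [GradedAlgebra 𝒜] (p : Ideal A) [hp : p.IsPrime]

omit hp in
lemma der_sum {K : Type} [Field K] [Algebra k K] (s : Finset ℕ) (f : ℕ → Derivation k K K) (x : K) :
    (∑ l ∈ s, f l) x = ∑ l ∈ s, f l x := by
  classical
  induction s using Finset.induction_on with
  | empty => rw [Finset.sum_empty, Finset.sum_empty]; rfl
  | insert i s hi ih => rw [Finset.sum_insert hi, Finset.sum_insert hi, Derivation.add_apply, ih]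

/-- every element of the field is a fraction -/
lemma exists_fr (x : FractionRing (A ⧸ p)) : ∃ a b : A, b ∉ p ∧
    x = φ (k := k) p a / φ (k := k) p b := by
  obtain ⟨y, z, hz, rfl⟩ := IsFractionRing.div_surjective (A := A ⧸ p) x
  obtain ⟨a, rfl⟩ := Ideal.Quotient.mk_surjective y
  obtain ⟨b, rfl⟩ := Ideal.Quotient.mk_surjective z
  refine ⟨a, b, fun h => nonZeroDivisors.ne_zero hz (Ideal.Quotient.eq_zero_iff_mem.mpr h), rfl⟩

lemma der_ext {d d' : Derivation k (FractionRing (A ⧸ p)) (FractionRing (A ⧸ p))}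
    (h : ∀ a, d (φ (k := k) p a) = d' (φ (k := k) p a)) : d = d' := by
  ext x
  obtain ⟨a, b, _, rfl⟩ := exists_fr (k := k) p x
  rw [Derivation.leibniz_div, Derivation.leibniz_div, h, h]

variable {m : ℕ} {δ : Fin m → Derivation k A A}

/-- the derivations of the field -/
theorem exists_der (hst : IsStable 𝒜 δ p) :
    ∃ d : ℕ → Derivation k (FractionRing (A ⧸ p)) (FractionRing (A ⧸ p)),
      ∀ i (h : i < m) a, d i (φ (k := k) p a) = φ (k := k) p (δ ⟨i, h⟩ a) := by
  have h1 : ∀ i : ℕ, ∃ d : Derivation k (FractionRing (A ⧸ p)) (FractionRing (A ⧸ p)),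
      ∀ (h : i < m) a, d (φ (k := k) p a) = φ (k := k) p (δ ⟨i, h⟩ a) := by
    intro i
    by_cases h : i < m
    · obtain ⟨D1, hD1⟩ := exists_quot (δ ⟨i, h⟩) p (hst.2 ⟨i, h⟩)
      obtain ⟨D2, hD2⟩ := exists_ext D1
      refine ⟨D2, fun _ a => ?_⟩
      rw [φ_apply, hD2, hD1, φ_apply]
    · exact ⟨0, fun h' => absurd h' h⟩
  choose d hd using h1
  exact ⟨d, hd⟩

section

variable {d : ℕ → Derivation k (FractionRing (A ⧸ p)) (FractionRing (A ⧸ p))}
  (hd : ∀ i (h : i < m) a, d i (φ (k := k) p a) = φ (k := k) p (δ ⟨i, h⟩ a))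
  (hδ : IsTriangular 𝒜 δ)

include hd hδ

/-- homogeneity -/
lemma d_hom (i : ℕ) (hi : i < m) : ∃ e, ∀ g, ∀ x ∈ frW 𝒜 p g, d i x ∈ frW 𝒜 p (g + e) := by
  obtain ⟨e, he⟩ := hδ.homogeneous ⟨i, hi⟩
  refine ⟨e, ?_⟩
  rintro g x ⟨h, a, ha, b, hb, hbp, rfl⟩
  have hb0 : φ (k := k) p b ≠ 0 := fun h => hbp ((φ_zero k p b).mp h)
  refine ⟨h + h, b * δ ⟨i, hi⟩ a - a * δ ⟨i, hi⟩ b, sub_mem ?_ ?_, b * b,
    SetLike.mul_mem_graded hb hb, fun h3 => (hp.mem_or_mem h3).elim hbp hbp, ?_⟩
  · have h3 := SetLike.mul_mem_graded hb (he _ _ ha)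
    rwa [show h + (h + g + e) = h + h + (g + e) by abel] at h3
  · have h3 := SetLike.mul_mem_graded ha (he _ _ hb)
    rwa [show h + g + (h + e) = h + h + (g + e) by abel] at h3
  · rw [Derivation.leibniz_div, hd i hi, hd i hi, map_sub, map_mul, map_mul, map_mul, smul_eq_mul,
      smul_eq_mul, smul_eq_mul]
    field_simp

omit [DecidableEq G] [GradedAlgebra 𝒜] in
lemma d_comm (i j : ℕ) (hij : i < j) (hj : j < m) : ∃ c : ℕ → k, ∀ x, d j (d i x) - d i (d j x) =
    ∑ l ∈ Finset.range i, c l • d l x := by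
  have hi : i < m := hij.trans hj
  -- the relation on `A`
  have h1 : ∀ Δ ∈ Submodule.span k (δ '' {l | l < ⟨i, hi⟩}), ∃ c : ℕ → k, ∀ a,
      φ (k := k) p (Δ a) = ∑ l ∈ Finset.range i, c l • d l (φ (k := k) p a) := by
    intro Δ hΔ
    induction hΔ using Submodule.span_induction with
    | mem Δ h =>
      obtain ⟨⟨l, hl⟩, hli, rfl⟩ := h
      have hli' : l < i := hli
      refine ⟨fun n => if n = l then 1 else 0, fun a => ?_⟩
      rw [Finset.sum_eq_single l]
      · beta_reduce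
        rw [if_pos rfl, one_smul, hd l hl]
      · intro n _ hn
        beta_reduce
        rw [if_neg hn, zero_smul]
      · exact fun h => absurd (Finset.mem_range.mpr hli') h
    | zero =>
      refine ⟨0, fun a => ?_⟩
      rw [Derivation.zero_apply, map_zero]
      exact (Finset.sum_eq_zero fun l _ => zero_smul _ _).symm
    | add Δ Δ' _ _ h h' =>
      obtain ⟨c, hc⟩ := h
      obtain ⟨c', hc'⟩ := h'
      refine ⟨c + c', fun a => ?_⟩
      rw [Derivation.add_apply, map_add, hc, hc', ← Finset.sum_add_distrib]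
      exact Finset.sum_congr rfl fun l _ => (add_smul _ _ _).symm
    | smul r Δ _ h =>
      obtain ⟨c, hc⟩ := h
      refine ⟨r • c, fun a => ?_⟩
      rw [Derivation.smul_apply, map_smul, hc, Finset.smul_sum]
      exact Finset.sum_congr rfl fun l _ => by
        rw [Pi.smul_apply, smul_assoc]
  obtain ⟨c, hc⟩ := h1 _ (hδ.commutator ⟨i, hi⟩ ⟨j, hj⟩ hij)
  refine ⟨c, fun x => ?_⟩
  have h2 : ⁅d j, d i⁆ = ∑ l ∈ Finset.range i, c l • d l := by
    apply der_ext p
    intro a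
    rw [Derivation.commutator_apply, hd i hi, hd j hj, hd j hj, hd i hi, ← map_sub, der_sum,
      ← Derivation.commutator_apply, hc]
    exact Finset.sum_congr rfl fun l _ => rfl
  rw [← Derivation.commutator_apply, h2, der_sum]
  exact Finset.sum_congr rfl fun l _ => rfl

/-- the derivations of the field are triangular -/
lemma d_tri : Tri (frW 𝒜 p) m d :=
  ⟨fun i hi => d_hom 𝒜 p hd hδ i hi, fun i j hij hj => d_comm 𝒜 p hd hδ i j hij hj⟩

omit [AddCommGroup G] [DecidableEq G] [GradedAlgebra 𝒜] hp hδ in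
lemma iter_φ (i : ℕ) (hi : i < m) (N : ℕ) (a : A) :
    ((d i)^[N]) (φ (k := k) p a) = φ (k := k) p (((δ ⟨i, hi⟩)^[N]) a) := by
  induction N with
  | zero => rfl
  | succ N ih => rw [Function.iterate_succ_apply', ih, hd i hi, Function.iterate_succ_apply']

/-- the image of `A` -/
lemma good_range [Algebra.FiniteType k A] : Good (frW 𝒜 p) m d (φ (k := k) p).range := by
  classical
  refine ⟨?_, ?_, ?_, ?_⟩
  · rw [Subalgebra.fg_iff_finiteType]
    exact Algebra.FiniteType.of_surjective (φ (k := k) p).rangeRestrict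
      (φ (k := k) p).rangeRestrict_surjective
  · rintro x ⟨a, rfl⟩
    change φ (k := k) p a ∈ _
    rw [← DirectSum.sum_support_decompose 𝒜 a, map_sum]
    exact gr_of _ _ (fun g _ => ⟨g, φ_mem 𝒜 p (SetLike.coe_mem _)⟩) (fun g _ => ⟨_, rfl⟩)
  · rintro i hi x ⟨a, rfl⟩
    exact ⟨δ ⟨i, hi⟩ a, (hd i hi a).symm⟩
  · rintro i hi x ⟨a, rfl⟩
    obtain ⟨N, hN⟩ := hδ.nilpotent ⟨i, hi⟩ a
    refine ⟨N, ?_⟩
    change ((d i)^[N]) (φ (k := k) p a) = 0
    rw [iter_φ p hd i hi, hN, map_zero]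

end

/-- **Stable prime ideals.** -/
theorem p_prime [Algebra.FiniteType k A] [Module.Free ℤ G] [Module.Finite ℤ G]
    (hchar : m = 0 ∨ CharZero k) (hδ : IsTriangular 𝒜 δ) (hst : IsStable 𝒜 δ p) {sep : Prop}
    {P : Sch k → Prop} (hP : Bnd sep P) {n : ℕ}
    (hn : ∀ (C : Type) [CommRing C] [Algebra k C] [Algebra.FiniteType k C], ringKrullDim C ≤ n →
      P (aff k C))
    (hmod : ∀ x : Fin (n + 1) → FractionRing (A ⧸ p), (∀ l, IsInv 𝒜 δ p (x l)) →
      ¬ AlgebraicIndependent k x)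
    (hq : ∀ a g, a ∉ p → a ∈ 𝒜 g → (∀ i, δ i a ∈ p) → P (aff k (A ⧸ (p ⊔ Ideal.span {a})))) :
    P (aff k (A ⧸ p)) := by
  obtain ⟨d, hd⟩ := exists_der (δ := δ) 𝒜 p hst
  have hW := wts 𝒜 p hst.1
  have hC : ∀ C : Subalgebra k (FractionRing (A ⧸ p)), C.FG →
      (∀ x ∈ C, x ∈ frW 𝒜 p 0 ∧ ∀ i < m, d i x = 0) → P (aff k C) := by
    intro C hC hx
    have : Algebra.FiniteType k C := (Subalgebra.fg_iff_finiteType _).mp hC
    apply hn
    apply dim_le_of (k := k)
    intro x hxi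
    refine hmod (fun l => (x l : FractionRing (A ⧸ p))) (fun l => ?_)
      (hxi.map' (f := C.val) Subtype.val_injective)
    obtain ⟨⟨h, a, ha, b, hb, hbp, he⟩, h2⟩ := hx _ (x l).2
    rw [add_zero] at ha
    refine ⟨h, a, ha, b, hb, hbp, fun i => ?_, he⟩
    have hb0 : φ (k := k) p b ≠ 0 := fun h => hbp ((φ_zero k p b).mp h)
    have h3 := h2 i.1 i.2
    rw [he, Derivation.leibniz_div, hd i.1 i.2, hd i.1 i.2, smul_eq_mul, smul_eq_mul, smul_eq_mul,
      ← map_mul, ← map_mul, ← map_sub] at h3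
    exact (φ_zero k p _).mp ((mul_eq_zero.mp h3).resolve_left (pow_ne_zero 2 (inv_ne_zero hb0)))
  obtain ⟨f, hf, h0, ⟨g, hg⟩, hfd, hfP⟩ := stage hW (d_tri 𝒜 p hd hδ) hchar hP hC m 0
    (zero_add m) _ (good_range 𝒜 p hd hδ) (fun i hi => absurd hi (Nat.not_lt_zero i))
  -- a homogeneous representative
  obtain ⟨a, ha⟩ := hf
  change φ (k := k) p a = f at ha
  classical
  have h1 : ∃ a' ∈ 𝒜 g, φ (k := k) p a' = f := by
    let v : G →₀ FractionRing (A ⧸ p) := Finsupp.onFinset (DirectSum.decompose 𝒜 a).support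
      (fun h => φ (k := k) p (DirectSum.decompose 𝒜 a h : A)) (by
        intro h hh
        rw [DFinsupp.mem_support_iff]
        intro h2
        rw [h2] at hh
        exact hh (map_zero _))
    have hv : ∀ h, v h ∈ frW 𝒜 p h := fun h => φ_mem 𝒜 p (SetLike.coe_mem _)
    have hs : ∑ h ∈ v.support, v h = f := by
      rw [← ha, ← DirectSum.sum_support_decompose 𝒜 a, map_sum]
      refine Finset.sum_subset Finsupp.support_onFinset_subset ?_
      intro h _ hh
      exact Finsupp.notMem_support_iff.mp hh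
    have h2 := comp_eq hW v hv (by rw [hs]; exact hg)
    exact ⟨_, SetLike.coe_mem _, by rw [← hs, h2]; rfl⟩
  obtain ⟨a', ha', haf⟩ := h1
  have hap : a' ∉ p := fun h => h0 (by rw [← haf]; exact (φ_zero k p a').mpr h)
  have had : ∀ i, δ i a' ∈ p := by
    intro i
    rw [← φ_zero k p, ← hd i.1 i.2, haf]
    exact hfd i.1 i.2
  refine ring_total hP (Ideal.Quotient.mk p a') (quot_mk hP p a' (hq a' g hap ha' had)) ?_
  -- the localization
  have hfr : f ∈ (φ (k := k) p).range := ⟨a', haf⟩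
  have hft : Algebra.FiniteType k (loc _ f hfr) := (Subalgebra.fg_iff_finiteType _).mp
    (loc_fg _ f hfr h0 (good_range 𝒜 p hd hδ).fg)
  let ψ : (A ⧸ p) →ₐ[k] FractionRing (A ⧸ p) := IsScalarTower.toAlgHom k (A ⧸ p) (FractionRing (A ⧸ p))
  have hψ : Function.Injective ψ := IsFractionRing.injective (A ⧸ p) (FractionRing (A ⧸ p))
  have hmem : ∀ y, ψ y ∈ (φ (k := k) p).range := by
    intro y
    obtain ⟨b, rfl⟩ := Ideal.Quotient.mk_surjective y
    exact ⟨b, rfl⟩
  let e : (A ⧸ p) ≃ₐ[k] (φ (k := k) p).range :=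
    AlgEquiv.ofBijective (ψ.codRestrict _ hmem) ⟨fun x y h => hψ (congrArg Subtype.val h), by
      rintro ⟨_, b, rfl⟩
      exact ⟨Ideal.Quotient.mk p b, rfl⟩⟩
  have he : e (Ideal.Quotient.mk p a') = ⟨f, hfr⟩ := Subtype.ext haf
  obtain ⟨e1⟩ := awayIso e (Ideal.Quotient.mk p a')
  rw [he] at e1
  obtain ⟨e2⟩ := loc_iso (φ (k := k) p).range f hfr h0
  exact iso_alg hP.toUni (e1.trans e2).symm hfP

end Pool.Agent.V5helper52.TU
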