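import Mathlib

/-!
# Derivations of quotients and of fraction fields
-/

set_option autoImplicit false
set_option maxHeartbeats 400000

namespace Pool.Agent.V5helper52.TU

variable {k : Type} [Field k]

/-- Derivations extend to the field of fractions. -/
theorem exists_ext {R : Type} [CommRing R] [IsDomain R] [Algebra k R] (D : Derivation k R R) :
    ∃ d : Derivation k (FractionRing R) (FractionRing R),
      ∀ a, d (algebraMap R (FractionRing R) a) = algebraMap R (FractionRing R) (D a) := by
  have h1 : Algebra.FormallyEtale R (FractionRing R) :=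
    Algebra.FormallyEtale.of_isLocalization (nonZeroDivisors R)
  have h2 := KaehlerDifferential.isBaseChange_of_formallyEtale k R (FractionRing R)
  let D' : Derivation k R (FractionRing R) := (Algebra.linearMap R (FractionRing R)).compDer D
  let L := h2.lift D'.liftKaehlerDifferential
  refine ⟨L.compDer (KaehlerDifferential.D k (FractionRing R)), fun a => ?_⟩
  change L (KaehlerDifferential.D k (FractionRing R) (algebraMap R (FractionRing R) a)) = _
  rw [← KaehlerDifferential.map_D k k R (FractionRing R), h2.lift_eq,
    Derivation.liftKaehlerDifferential_comp_D]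
  rfl

/-- Derivations which preserve an ideal act on the quotient. -/
theorem exists_quot {A : Type} [CommRing A] [Algebra k A] (D : Derivation k A A) (p : Ideal A)
    (hp : ∀ a ∈ p, D a ∈ p) :
    ∃ d : Derivation k (A ⧸ p) (A ⧸ p),
      ∀ a, d (Ideal.Quotient.mk p a) = Ideal.Quotient.mk p (D a) := by
  let f : (A ⧸ p) → (A ⧸ p) := Quotient.lift (s := Submodule.quotientRel p)
    (fun a => Ideal.Quotient.mk p (D a)) (by
      intro a b h
      have h1 : a - b ∈ p := (Submodule.quotientRel_def _).mp h
      change Ideal.Quotient.mk p (D a) = Ideal.Quotient.mk p (D b)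
      rw [Ideal.Quotient.eq, ← map_sub]
      exact hp _ h1)
  have hf : ∀ a, f (Ideal.Quotient.mk p a) = Ideal.Quotient.mk p (D a) := fun a => rfl
  let L : (A ⧸ p) →ₗ[k] (A ⧸ p) :=
    { toFun := f
      map_add' := by
        intro x y
        obtain ⟨a, rfl⟩ := Ideal.Quotient.mk_surjective x
        obtain ⟨b, rfl⟩ := Ideal.Quotient.mk_surjective y
        rw [← map_add, hf, hf, hf, map_add, map_add]
      map_smul' := by
        intro r x
        obtain ⟨a, rfl⟩ := Ideal.Quotient.mk_surjective x
        have h1 : ∀ b : A, r • Ideal.Quotient.mk p b = Ideal.Quotient.mk p (r • b) := fun b => rfl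
        rw [h1, hf, hf, RingHom.id_apply, h1, D.map_smul] }
  refine ⟨Derivation.mk' L ?_, fun a => rfl⟩
  intro x y
  obtain ⟨a, rfl⟩ := Ideal.Quotient.mk_surjective x
  obtain ⟨b, rfl⟩ := Ideal.Quotient.mk_surjective y
  change f (Ideal.Quotient.mk p a * Ideal.Quotient.mk p b) =
    Ideal.Quotient.mk p a * f (Ideal.Quotient.mk p b) +
      Ideal.Quotient.mk p b * f (Ideal.Quotient.mk p a)
  rw [← map_mul, hf, hf, hf, Derivation.leibniz, map_add, smul_eq_mul, smul_eq_mul, map_mul, map_mul]

end Pool.Agent.V5helper52.TU
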