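import Pool.Agent.V5helper52.TU.Defs

/-!
# Minimal primes of stable ideals are stable
-/

set_option autoImplicit false
set_option maxHeartbeats 400000

open Finset

namespace Pool.Agent.V5helper52.TU

variable {k A : Type} [Field k] [CommRing A] [Algebra k A]

/-- the rule of Leibniz -/
theorem iterate_mul (δ : Derivation k A A) (n : ℕ) (a b : A) :
    (δ^[n]) (a * b) = ∑ ij ∈ antidiagonal n, Nat.choose n ij.1 • ((δ^[ij.1]) a * (δ^[ij.2]) b) := by
  induction n with
  | zero => simp
  | succ n ih =>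
    rw [sum_antidiagonal_choose_succ_nsmul (M := A) (fun i j => (δ^[i]) a * (δ^[j]) b) n]
    simp only [Function.iterate_succ_apply', ih, map_sum, map_nsmul, Derivation.leibniz, smul_add,
      sum_add_distrib, smul_eq_mul, add_right_inj]
    refine sum_congr rfl fun ⟨i, j⟩ hij ↦ ?_
    rw [n.choose_symm_of_eq_add (mem_antidiagonal.1 hij).symm, mul_comm]

/-- the largest ideal in `p` which is preserved by the derivation -/
def dcore (δ : Derivation k A A) (p : Ideal A) : Ideal A where
  carrier := {a | ∀ n : ℕ, (δ^[n]) a ∈ p}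
  add_mem' := by
    intro a b ha hb n
    rw [iterate_map_add]
    exact add_mem (ha n) (hb n)
  zero_mem' := by
    intro n
    rw [iterate_map_zero]
    exact zero_mem _
  smul_mem' := by
    intro c a ha n
    rw [smul_eq_mul, iterate_mul]
    exact sum_mem fun ij _ => nsmul_mem (Ideal.mul_mem_left _ _ (ha _)) _

lemma dcore_le (δ : Derivation k A A) (p : Ideal A) : dcore δ p ≤ p := fun _ ha => ha 0

lemma dcore_prime [CharZero k] (δ : Derivation k A A) (p : Ideal A) [hp : p.IsPrime] :
    (dcore δ p).IsPrime := by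
  classical
  refine ⟨fun h => hp.ne_top (top_le_iff.mp (h ▸ dcore_le δ p)), ?_⟩
  intro a b hab
  by_contra hcon
  push Not at hcon
  obtain ⟨ha, hb⟩ := hcon
  have ha' : ∃ n : ℕ, (δ^[n]) a ∉ p := by
    by_contra h
    push Not at h
    exact ha h
  have hb' : ∃ n : ℕ, (δ^[n]) b ∉ p := by
    by_contra h
    push Not at h
    exact hb h
  have hi := Nat.find_spec ha'
  have hj := Nat.find_spec hb'
  have him := fun M (hM : M < Nat.find ha') => Nat.find_min ha' hM
  have hjm := fun M (hM : M < Nat.find hb') => Nat.find_min hb' hM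
  set i := Nat.find ha'
  set j := Nat.find hb'
  have h1 := hab (i + j)
  have hij : (i, j) ∈ antidiagonal (i + j) := mem_antidiagonal.mpr rfl
  rw [iterate_mul, ← Finset.add_sum_erase _ _ hij] at h1
  have h2 : ∑ ij ∈ (antidiagonal (i + j)).erase (i, j),
      Nat.choose (i + j) ij.1 • ((δ^[ij.1]) a * (δ^[ij.2]) b) ∈ p := by
    refine sum_mem fun st hst => nsmul_mem ?_ _
    obtain ⟨hne, hst⟩ := Finset.mem_erase.mp hst
    have hst' := mem_antidiagonal.mp hst
    by_cases h : st.1 < i
    · exact Ideal.mul_mem_right _ _ (not_not.mp (him _ h))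
    · have h' : st.2 < j := by
        by_contra h'
        apply hne
        ext
        · omega
        · omega
      exact Ideal.mul_mem_left _ _ (not_not.mp (hjm _ h'))
  have h3 := (Ideal.add_mem_iff_left p h2).mp h1
  have h4 : (Nat.choose (i + j) i : k) ≠ 0 :=
    Nat.cast_ne_zero.mpr (Nat.choose_pos (Nat.le_add_right i j)).ne'
  have h5 : (δ^[i]) a * (δ^[j]) b ∈ p := by
    have h6 := (p.restrictScalars k).smul_mem (Nat.choose (i + j) i : k)⁻¹ h3
    change (Nat.choose (i + j) i : k)⁻¹ • (Nat.choose (i + j) i • ((δ^[i]) a * (δ^[j]) b)) ∈ _ at h6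
    rwa [← Nat.cast_smul_eq_nsmul k, smul_smul, inv_mul_cancel₀ h4, one_smul] at h6
  exact (hp.mem_or_mem h5).elim hi hj

lemma min_der [CharZero k] (δ : Derivation k A A) {I p : Ideal A} (hp : p ∈ I.minimalPrimes)
    (hI : ∀ a ∈ I, δ a ∈ I) : ∀ a ∈ p, δ a ∈ p := by
  have hpp : p.IsPrime := hp.1.1
  have h1 : I ≤ dcore δ p := by
    intro a ha n
    have h2 : ∀ n : ℕ, (δ^[n]) a ∈ I := by
      intro n
      induction n with
      | zero => exact ha
      | succ n ih => rw [Function.iterate_succ_apply']; exact hI _ ih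
    exact hp.1.2 (h2 n)
  have h2 := hp.2 ⟨dcore_prime δ p, h1⟩ (dcore_le δ p)
  exact fun a ha => h2 ha 1

lemma min_hom {ι : Type} [AddCommGroup ι] [LinearOrder ι] [IsOrderedCancelAddMonoid ι]
    (𝒜 : ι → Submodule k A) [GradedAlgebra 𝒜] {I p : Ideal A} (hp : p ∈ I.minimalPrimes)
    (hI : I.IsHomogeneous 𝒜) : p.IsHomogeneous 𝒜 := by
  have hpp : p.IsPrime := hp.1.1
  have h1 : I ≤ (p.homogeneousCore 𝒜).toIdeal := by
    have h2 : I = (I.homogeneousCore 𝒜).toIdeal := hI.toIdeal_homogeneousCore_eq_self.symm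
    rw [h2]
    exact Ideal.homogeneousCore_mono 𝒜 hp.1.2
  have h2 := hp.2 ⟨hpp.homogeneousCore, h1⟩ (Ideal.toIdeal_homogeneousCore_le 𝒜 p)
  have h3 : p = (p.homogeneousCore 𝒜).toIdeal := le_antisymm h2 (Ideal.toIdeal_homogeneousCore_le 𝒜 p)
  rw [h3]
  exact HomogeneousIdeal.isHomogeneous _

end Pool.Agent.V5helper52.TU
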