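import Pool.Agent.V5helper52.TU.Dom
import Pool.Agent.V5helper52.TU.Min
import Pool.Agent.V5helper52.TU.Union

/-!
# Stable closed subschemes
-/

set_option autoImplicit false
set_option maxHeartbeats 400000

open Pool.Agent.Y116.UV Pool.Agent.Z125.UN Pool.Agent.V5helper52.SF

namespace Pool.Agent.V5helper52.TU

variable {k A : Type} [Field k] [CommRing A] [Algebra k A]

lemma min_hom' {ι : Type} [AddCommGroup ι] [LinearOrder ι] [IsOrderedCancelAddMonoid ι]
    (dec : DecidableEq ι) (𝒜 : ι → Submodule k A) [inst : @GradedAlgebra ι k A dec _ _ _ _ 𝒜]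
    {I p : Ideal A} (hp : p ∈ I.minimalPrimes) (hI : I.IsHomogeneous 𝒜) : p.IsHomogeneous 𝒜 := by
  obtain rfl : dec = LinearOrder.toDecidableEq := Subsingleton.elim _ _
  exact min_hom 𝒜 hp hI

lemma min_hom_fin {r : ℕ} (𝒜 : (Fin r → ℤ) → Submodule k A) [inst : GradedAlgebra 𝒜]
    {I p : Ideal A} (hp : p ∈ I.minimalPrimes) (hI : I.IsHomogeneous 𝒜) : p.IsHomogeneous 𝒜 :=
  min_hom' (ι := Lex (Fin r → ℤ)) (inferInstanceAs (DecidableEq (Fin r → ℤ))) 𝒜 (inst := inst) hp hI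

variable {r m : ℕ} (𝒜 : (Fin r → ℤ) → Submodule k A) [GradedAlgebra 𝒜]
  (δ : Fin m → Derivation k A A)

lemma min_stable (hchar : m = 0 ∨ CharZero k) {I p : Ideal A} (hp : p ∈ I.minimalPrimes)
    (hI : IsStable 𝒜 δ I) : IsStable 𝒜 δ p := by
  refine ⟨min_hom_fin 𝒜 hp hI.1, ?_⟩
  rcases hchar with h | h
  · subst h
    exact fun i => i.elim0
  · exact fun i => min_der (δ i) hp (hI.2 i)

variable {𝒜 δ}

lemma stable_top : IsStable 𝒜 δ ⊤ := ⟨Ideal.IsHomogeneous.top 𝒜, fun _ _ _ => trivial⟩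

lemma stable_bot : IsStable 𝒜 δ ⊥ := ⟨Ideal.IsHomogeneous.bot 𝒜, fun i a ha => by
  rw [Ideal.mem_bot] at ha
  rw [ha, map_zero]
  exact zero_mem _⟩

lemma stable_sup {I J : Ideal A} (hI : IsStable 𝒜 δ I) (hJ : IsStable 𝒜 δ J) :
    IsStable 𝒜 δ (I ⊔ J) := by
  refine ⟨hI.1.sup hJ.1, fun i a ha => ?_⟩
  obtain ⟨b, hb, c, hc, rfl⟩ := Submodule.mem_sup.mp ha
  rw [map_add]
  exact add_mem (Ideal.mem_sup_left (hI.2 i b hb)) (Ideal.mem_sup_right (hJ.2 i c hc))

lemma stable_sInf {S : Set (Ideal A)} (h : ∀ I ∈ S, IsStable 𝒜 δ I) : IsStable 𝒜 δ (sInf S) := by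
  refine ⟨Ideal.IsHomogeneous.sInf fun I hI => (h I hI).1, fun i a ha => ?_⟩
  rw [Submodule.mem_sInf] at ha ⊢
  exact fun I hI => (h I hI).2 i a (ha I hI)

/-- adjoining a homogeneous element which is invariant modulo the ideal -/
lemma stable_adj {I : Ideal A} (hI : IsStable 𝒜 δ I) {a : A} {g : Fin r → ℤ} (ha : a ∈ 𝒜 g)
    (hd : ∀ i, δ i a ∈ I) : IsStable 𝒜 δ (I ⊔ Ideal.span {a}) := by
  refine ⟨hI.1.sup (Ideal.homogeneous_span 𝒜 {a} fun x hx => ?_), fun i b hb => ?_⟩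
  · rw [Set.mem_singleton_iff.mp hx]
    exact ⟨g, ha⟩
  · obtain ⟨c, hc, e, he, rfl⟩ := Submodule.mem_sup.mp hb
    obtain ⟨f, rfl⟩ := Ideal.mem_span_singleton'.mp he
    rw [map_add, Derivation.leibniz, smul_eq_mul, smul_eq_mul]
    refine add_mem (Ideal.mem_sup_left (hI.2 i c hc)) (add_mem ?_ ?_)
    · exact Ideal.mem_sup_left (Ideal.mul_mem_left _ _ (hd i))
    · exact Ideal.mul_mem_right _ _ (Ideal.mem_sup_right (Ideal.mem_span_singleton_self a))

/-- **Stable closed subschemes.** -/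
theorem p_stable [Algebra.FiniteType k A] (hchar : m = 0 ∨ CharZero k) (hδ : IsTriangular 𝒜 δ)
    {P : Sch k → Prop} (hP : Bnd True P) {n : ℕ}
    (hn : ∀ (C : Type) [CommRing C] [Algebra k C] [Algebra.FiniteType k C], ringKrullDim C ≤ n →
      P (aff k C)) (hmod : ModalityLE 𝒜 δ n) (I : Ideal A) (hI : IsStable 𝒜 δ I) :
    P (aff k (A ⧸ I)) := by
  have hN : IsNoetherianRing A := Algebra.FiniteType.isNoetherianRing k A
  induction I using IsNoetherian.induction (R := A) (M := A) with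
  | hgt I ih =>
  by_cases hIt : I = ⊤
  · exact p_empty hP _ (Ideal.Quotient.subsingleton_iff.mpr hIt)
  obtain ⟨p, hp⟩ := Ideal.nonempty_minimalPrimes hIt
  have hpp : p.IsPrime := hp.1.1
  have hps := min_stable 𝒜 δ hchar hp hI
  by_cases hIp : I = p
  · subst hIp
    refine p_prime 𝒜 I hchar hδ hI hP hn (hmod I hI) fun a g haI hag had => ?_
    refine ih _ ?_ (stable_adj hI hag had)
    refine lt_of_le_of_ne le_sup_left fun h => haI ?_
    rw [h]
    exact Ideal.mem_sup_right (Ideal.mem_span_singleton_self a)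
  · -- the other minimal primes
    let J : Ideal A := sInf (Ideal.minimalPrimes I \ {p})
    have hJs : IsStable 𝒜 δ J := stable_sInf fun q hq => min_stable 𝒜 δ hchar hq.1 hI
    have hIp' : I < p := lt_of_le_of_ne hp.1.2 hIp
    have hIJ : I ≤ J := le_sInf fun q hq => hq.1.1.2
    have hrad : p ⊓ J ≤ Ideal.radical I := by
      rw [← Ideal.sInf_minimalPrimes]
      refine le_sInf fun q hq => ?_
      by_cases hqp : q = p
      · rw [hqp]; exact inf_le_left
      · exact inf_le_right.trans (sInf_le ⟨hq, hqp⟩)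
    have hfin : (Ideal.minimalPrimes I).Finite := Ideal.finite_minimalPrimes_of_isNoetherianRing A I
    have hJ : I ≠ J := by
      intro h
      -- `p` contains the intersection of the other minimal primes
      have h1 : (hfin.sdiff (t := {p})).toFinset.inf id ≤ p := by
        have h2 : (hfin.sdiff (t := {p})).toFinset.inf id = J := by
          rw [Finset.inf_id_eq_sInf, Set.Finite.coe_toFinset]
        rw [h2, ← h]
        exact hp.1.2
      rw [Ideal.IsPrime.inf_le' hpp] at h1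
      obtain ⟨q, hq, hqp⟩ := h1
      rw [Set.Finite.mem_toFinset] at hq
      exact hq.2 (le_antisymm hqp (hp.2 hq.1.1 hqp))
    have hIJ' : I < J := lt_of_le_of_ne hIJ hJ
    exact p_union hP hp.1.2 hIJ hrad (ih p hIp' hps) (ih J hIJ' hJs)
      (ih (p ⊔ J) (lt_of_lt_of_le hIp' le_sup_left) (stable_sup hps hJs))

end Pool.Agent.V5helper52.TU
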