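import Mathlib

/-!
# Slices of locally nilpotent derivations
-/

set_option autoImplicit false
set_option maxHeartbeats 400000

open Polynomial

namespace Pool.Agent.V5helper52.TU

variable {k K : Type} [Field k] [Field K] [Algebra k K]

/-- the kernel of a derivation -/
def kr (δ : Derivation k K K) : Subalgebra k K where
  carrier := {x | δ x = 0}
  mul_mem' {a b} ha hb := by
    change δ (a * b) = 0
    rw [Derivation.leibniz, show δ a = 0 from ha, show δ b = 0 from hb, smul_zero, smul_zero,
      add_zero]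
  add_mem' {a b} ha hb := by
    change δ (a + b) = 0
    rw [map_add, show δ a = 0 from ha, show δ b = 0 from hb, add_zero]
  algebraMap_mem' r := Derivation.map_algebraMap δ r

lemma mem_kr {δ : Derivation k K K} {x : K} : x ∈ kr δ ↔ δ x = 0 := Iff.rfl

/-- an antiderivative -/
lemma exists_anti [CharZero k] {B : Type} [CommRing B] [Algebra k B] (q : B[X]) :
    ∃ Q : B[X], derivative Q = q := by
  induction q using Polynomial.induction_on' with
  | add p q hp hq =>
    obtain ⟨P, hP⟩ := hp
    obtain ⟨Q, hQ⟩ := hq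
    exact ⟨P + Q, by rw [derivative_add, hP, hQ]⟩
  | monomial n b =>
    refine ⟨monomial (n + 1) (((n + 1 : ℕ) : k)⁻¹ • b), ?_⟩
    rw [derivative_monomial, Nat.add_sub_cancel]
    congr 1
    have h : ((n + 1 : ℕ) : k) ≠ 0 := Nat.cast_ne_zero.mpr (Nat.succ_ne_zero n)
    rw [mul_comm, ← nsmul_eq_mul, ← Nat.cast_smul_eq_nsmul k, smul_smul, mul_inv_cancel₀ h, one_smul]

section

variable (δ : Derivation k K K) (T : Subalgebra k K) (σ : K) (hσ : σ ∈ T) (hσ1 : δ σ = 1)

/-- the constants in `T` -/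
def cst : Subalgebra k K := T ⊓ kr δ

lemma cst_le : cst δ T ≤ T := inf_le_left

lemma cst_zero (b : cst δ T) : δ (b : K) = 0 := b.2.2

/-- evaluation at the slice -/
noncomputable def sev : (cst δ T)[X] →ₐ[cst δ T] K := aeval σ

include hσ1 in
lemma sev_der (p : (cst δ T)[X]) : δ (sev δ T σ p) = sev δ T σ (derivative p) := by
  induction p using Polynomial.induction_on' with
  | add p q hp hq => rw [map_add, map_add, hp, hq, derivative_add, map_add]
  | monomial n b =>
    rw [derivative_monomial, sev, aeval_monomial, aeval_monomial, Derivation.leibniz,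
      Derivation.leibniz_pow]
    have hb : δ (algebraMap (cst δ T) K b) = 0 := cst_zero δ T b
    rw [hb, smul_zero, add_zero, hσ1, smul_eq_mul, map_mul, map_natCast, smul_eq_mul, mul_one,
      nsmul_eq_mul, mul_assoc]

include hσ1 in
lemma sev_inj [CharZero k] : Function.Injective (sev δ T σ) := by
  rw [injective_iff_map_eq_zero]
  have key : ∀ n : ℕ, ∀ p : (cst δ T)[X], p.natDegree ≤ n → sev δ T σ p = 0 → p = 0 := by
    intro n
    induction n with
    | zero =>
      intro p hp h
      rw [eq_C_of_natDegree_le_zero hp, sev, aeval_C] at h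
      rw [eq_C_of_natDegree_le_zero hp]
      have h1 : p.coeff 0 = 0 := Subtype.ext h
      rw [h1, C_0]
    | succ n ih =>
      intro p hp h
      have h1 : derivative p = 0 := by
        apply ih
        · exact (natDegree_derivative_le p).trans (by omega)
        · rw [← sev_der δ T σ hσ1, h, map_zero]
      have h2 : CharZero (cst δ T) := charZero_of_injective_algebraMap (algebraMap k (cst δ T)).injective
      have h3 : p.natDegree = 0 := (Polynomial.derivative_eq_zero (R := cst δ T)).mp h1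
      rw [eq_C_of_natDegree_le_zero h3.le, sev, aeval_C] at h
      rw [eq_C_of_natDegree_le_zero h3.le]
      have h1 : p.coeff 0 = 0 := Subtype.ext h
      rw [h1, C_0]
  exact fun p hp => key _ p le_rfl hp

include hσ in
lemma sev_mem (p : (cst δ T)[X]) : sev δ T σ p ∈ T := by
  induction p using Polynomial.induction_on' with
  | add p q hp hq => rw [map_add]; exact add_mem hp hq
  | monomial n b =>
    rw [sev, aeval_monomial]
    exact mul_mem (cst_le δ T b.2) (pow_mem hσ n)

include hσ hσ1 in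
lemma sev_surj [CharZero k] (hn : ∀ x ∈ T, ∃ n : ℕ, (δ^[n]) x = 0) (hs : ∀ x ∈ T, δ x ∈ T) (x : K) (hx : x ∈ T) :
    ∃ p, sev δ T σ p = x := by
  obtain ⟨n, h⟩ := hn x hx
  induction n generalizing x with
  | zero => exact ⟨0, by rw [map_zero]; exact h.symm⟩
  | succ n ih =>
    obtain ⟨q, hq⟩ := ih (δ x) (hs x hx) h
    obtain ⟨Q, hQ⟩ := exists_anti (k := k) q
    have h1 : x - sev δ T σ Q ∈ cst δ T := by
      refine ⟨sub_mem hx (sev_mem δ T σ hσ Q), ?_⟩
      change δ (x - sev δ T σ Q) = 0
      rw [map_sub, sev_der δ T σ hσ1, hQ, hq, sub_self]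
    have h2 : sev δ T σ (C ⟨_, h1⟩) = x - sev δ T σ Q := aeval_C _ _
    refine ⟨Q + C ⟨_, h1⟩, ?_⟩
    rw [map_add, h2]
    exact add_sub_cancel _ x

include hσ hσ1 in
/-- **The slice theorem.** -/
theorem slice [CharZero k] (hn : ∀ x ∈ T, ∃ n : ℕ, (δ^[n]) x = 0) (hs : ∀ x ∈ T, δ x ∈ T) :
    Nonempty (T ≃ₐ[k] (cst δ T)[X]) := by
  let f : (cst δ T)[X] →ₐ[k] T := ((sev δ T σ).restrictScalars k).codRestrict T
    (sev_mem δ T σ hσ)
  have hf : Function.Bijective f := by
    constructor
    · intro p q h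
      exact sev_inj δ T σ hσ1 (congrArg Subtype.val h)
    · rintro ⟨x, hx⟩
      obtain ⟨p, hp⟩ := sev_surj δ T σ hσ hσ1 hn hs x hx
      exact ⟨p, Subtype.ext hp⟩
  exact ⟨(AlgEquiv.ofBijective f hf).symm⟩

include hσ hσ1 in
lemma slice_fg [CharZero k] (hn : ∀ x ∈ T, ∃ n : ℕ, (δ^[n]) x = 0) (hs : ∀ x ∈ T, δ x ∈ T) (hT : T.FG) :
    (cst δ T).FG := by
  obtain ⟨e⟩ := slice δ T σ hσ hσ1 hn hs
  rw [Subalgebra.fg_iff_finiteType] at hT ⊢
  have h1 : Algebra.FiniteType k (cst δ T)[X] := Algebra.FiniteType.equiv hT e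
  refine Algebra.FiniteType.of_surjective
    ((aeval (0 : cst δ T) : (cst δ T)[X] →ₐ[cst δ T] cst δ T).restrictScalars k) ?_
  intro b
  exact ⟨C b, aeval_C _ _⟩

end

end Pool.Agent.V5helper52.TU
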