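import Pool.Agent.V5helper52.TU.Torus

/-!
# Inverting homogeneous generators
-/

set_option autoImplicit false
set_option maxHeartbeats 400000

namespace Pool.Agent.V5helper52.TU

variable {k K G : Type} [Field k] [Field K] [Algebra k K] [AddCommGroup G]
  {W : G → Submodule k K} (hW : Wts W)

/-- the homogeneous units form a monoid -/
def hunM (T : Subalgebra k K) : Submonoid K where
  carrier := hun W T
  mul_mem' := by
    rintro u v ⟨h1, h2, h3, g, h4⟩ ⟨h5, h6, h7, h, h8⟩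
    exact ⟨mul_mem h1 h5, by rw [mul_inv]; exact mul_mem h2 h6, mul_ne_zero h3 h7, _, hW.mul h4 h8⟩
  one_mem' := ⟨one_mem _, by rw [inv_one]; exact one_mem _, one_ne_zero, 0, hW.one⟩

omit [AddCommGroup G] in
lemma exists_gens {S : Subalgebra k K} (hS : Gr W S) (hfg : S.FG) :
    ∃ t : Finset K, (∀ y ∈ t, y ≠ 0 ∧ y ∈ S ∧ ∃ g, y ∈ W g) ∧ S ≤ Algebra.adjoin k (t : Set K) := by
  classical
  obtain ⟨t, ht⟩ := hfg
  have h1 : ∀ x : K, ∃ v : G →₀ K, x ∈ t → (∀ g, v g ∈ W g) ∧ (∀ g, v g ∈ S) ∧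
      ∑ g ∈ v.support, v g = x := by
    intro x
    by_cases hx : x ∈ t
    · obtain ⟨v, hv⟩ := gr_comp hS (x := x) (by rw [← ht]; exact Algebra.subset_adjoin hx)
      exact ⟨v, fun _ => hv⟩
    · exact ⟨0, fun h => absurd h hx⟩
  choose v hv using h1
  refine ⟨t.biUnion fun x => (v x).support.image (v x), ?_, ?_⟩
  · intro y hy
    rw [Finset.mem_biUnion] at hy
    obtain ⟨x, hx, hy⟩ := hy
    rw [Finset.mem_image] at hy
    obtain ⟨g, hg, rfl⟩ := hy
    exact ⟨Finsupp.mem_support_iff.mp hg, (hv x hx).2.1 g, g, (hv x hx).1 g⟩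
  · rw [← ht, Algebra.adjoin_le_iff]
    intro x hx
    have hx' : x ∈ t := hx
    rw [← (hv x hx').2.2]
    refine sum_mem fun g hg => Algebra.subset_adjoin ?_
    rw [Finset.mem_coe, Finset.mem_biUnion]
    exact ⟨x, hx', Finset.mem_image_of_mem _ hg⟩

include hW in
theorem exists_units {S : Subalgebra k K} (hS : Gr W S) (hfg : S.FG) :
    ∃ (f : K) (hf : f ∈ S), f ≠ 0 ∧ (∃ g, f ∈ W g) ∧
      Subalgebra.toSubmodule (loc S f hf) ≤ Submodule.span k (hun W (loc S f hf)) := by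
  classical
  obtain ⟨t, ht, hSt⟩ := exists_gens hS hfg
  have h1 : ∀ y : K, ∃ g, y ∈ t → y ∈ W g := by
    intro y
    by_cases hy : y ∈ t
    · obtain ⟨g, hg⟩ := (ht y hy).2.2
      exact ⟨g, fun _ => hg⟩
    · exact ⟨0, fun h => absurd h hy⟩
  choose γ hγ using h1
  let f : K := ∏ y ∈ t, y
  have hf : f ∈ S := prod_mem fun y hy => (ht y hy).2.1
  have h0 : f ≠ 0 := Finset.prod_ne_zero_iff.mpr fun y hy => (ht y hy).1
  have hfg' : f ∈ W (∑ y ∈ t, γ y) := w_prod hW t γ (fun y => y) hγ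
  refine ⟨f, hf, h0, ⟨_, hfg'⟩, ?_⟩
  set T := loc S f hf with hT
  have hinv : f⁻¹ ∈ T := inv_loc S f hf h0
  have hle : S ≤ T := le_loc S f hf
  have h2 : Submonoid.closure ((t : Set K) ∪ {f⁻¹}) ≤ hunM hW T := by
    rw [Submonoid.closure_le]
    rintro y (hy | hy)
    · have hy' : y ∈ t := hy
      obtain ⟨h3, h4, g, h5⟩ := ht y hy'
      refine ⟨hle h4, ⟨1, ?_⟩, h3, g, h5⟩
      have h6 : f ^ 1 * y⁻¹ = ∏ z ∈ t.erase y, z := by
        rw [pow_one]
        change (∏ y ∈ t, y) * y⁻¹ = _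
        rw [← Finset.mul_prod_erase t (fun z => z) hy', mul_comm, inv_mul_cancel_left₀ h3]
      rw [h6]
      exact prod_mem fun z hz => (ht z (Finset.mem_of_mem_erase hz)).2.1
    · have hy' : y = f⁻¹ := hy
      rw [hy']
      exact ⟨hinv, by rw [inv_inv]; exact hle hf, inv_ne_zero h0, _, hW.inv hfg'⟩
  rintro x ⟨n, hn⟩
  have h3 : x = f⁻¹ ^ n * (f ^ n * x) := by
    rw [inv_pow, inv_mul_cancel_left₀ (pow_ne_zero n h0)]
  have h4 : x ∈ Algebra.adjoin k ((t : Set K) ∪ {f⁻¹}) := by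
    rw [h3]
    refine mul_mem (pow_mem (Algebra.subset_adjoin
      (Set.mem_union_right _ (Set.mem_singleton f⁻¹))) n) ?_
    exact Algebra.adjoin_mono (Set.subset_union_left) (hSt hn)
  rw [← Subalgebra.mem_toSubmodule, Algebra.adjoin_eq_span] at h4
  have h5 : ((Submonoid.closure ((t : Set K) ∪ {f⁻¹}) : Submonoid K) : Set K) ⊆ hun W T := h2
  exact Submodule.span_mono h5 h4

end Pool.Agent.V5helper52.TU
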