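import Pool.Agent.V5helper52.TU.Slice

/-!
# Graded subalgebras of a field and their localizations
-/

set_option autoImplicit false
set_option maxHeartbeats 400000

namespace Pool.Agent.V5helper52.TU

variable {k K G : Type} [Field k] [Field K] [Algebra k K]

/-- homogeneous fractions in a field -/
structure Wts [AddCommGroup G] (W : G → Submodule k K) : Prop where
  one : (1 : K) ∈ W 0
  mul : ∀ {g h : G} {x y : K}, x ∈ W g → y ∈ W h → x * y ∈ W (g + h)
  inv : ∀ {g : G} {x : K}, x ∈ W g → x⁻¹ ∈ W (-g)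
  indep : ∀ v : G →₀ K, (∀ g, v g ∈ W g) → ∑ g ∈ v.support, v g = 0 → v = 0

/-- graded subalgebras -/
def Gr (W : G → Submodule k K) (S : Subalgebra k K) : Prop :=
  Subalgebra.toSubmodule S ≤ ⨆ g, W g ⊓ Subalgebra.toSubmodule S

section loc

variable (S : Subalgebra k K) (f : K) (hf : f ∈ S)

/-- the localization of a subalgebra -/
def loc (hf : f ∈ S) : Subalgebra k K where
  carrier := {x | ∃ n : ℕ, f ^ n * x ∈ S}
  mul_mem' := by
    rintro a b ⟨n, hn⟩ ⟨m, hm⟩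
    refine ⟨n + m, ?_⟩
    have h := mul_mem hn hm
    rwa [show f ^ n * a * (f ^ m * b) = f ^ (n + m) * (a * b) by ring] at h
  add_mem' := by
    rintro a b ⟨n, hn⟩ ⟨m, hm⟩
    refine ⟨n + m, ?_⟩
    have h := add_mem (mul_mem (pow_mem hf m) hn) (mul_mem (pow_mem hf n) hm)
    rwa [show f ^ m * (f ^ n * a) + f ^ n * (f ^ m * b) = f ^ (n + m) * (a + b) by ring] at h
  algebraMap_mem' r := ⟨0, by rw [pow_zero, one_mul]; exact S.algebraMap_mem r⟩

lemma mem_loc {x : K} : x ∈ loc S f hf ↔ ∃ n : ℕ, f ^ n * x ∈ S := Iff.rfl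

lemma le_loc : S ≤ loc S f hf := fun x hx => ⟨0, by rw [pow_zero, one_mul]; exact hx⟩

lemma inv_loc (h0 : f ≠ 0) : f⁻¹ ∈ loc S f hf := ⟨1, by
  rw [pow_one, mul_inv_cancel₀ h0]; exact one_mem S⟩

lemma loc_iso (h0 : f ≠ 0) : Nonempty (Localization.Away (⟨f, hf⟩ : S) ≃ₐ[k] loc S f hf) := by
  let _ : Algebra S (loc S f hf) := (Subalgebra.inclusion (le_loc S f hf)).toAlgebra
  have hval : ∀ x : S, ((algebraMap S (loc S f hf) x : loc S f hf) : K) = x := fun x => rfl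
  have : IsScalarTower k S (loc S f hf) := IsScalarTower.of_algebraMap_eq fun x => rfl
  have : IsLocalization (Submonoid.powers (⟨f, hf⟩ : S)) (loc S f hf) := by
    refine (isLocalization_iff _ _).mpr ⟨?_, ?_, ?_⟩
    · rintro ⟨_, n, rfl⟩
      have h1 : (⟨f, le_loc S f hf hf⟩ : loc S f hf) * ⟨f⁻¹, inv_loc S f hf h0⟩ = 1 :=
        Subtype.ext (mul_inv_cancel₀ h0)
      have h2 : IsUnit (⟨f, le_loc S f hf hf⟩ : loc S f hf) := IsUnit.of_mul_eq_one _ h1
      have h3 : algebraMap S (loc S f hf) (⟨f, hf⟩ ^ n) = (⟨f, le_loc S f hf hf⟩ : loc S f hf) ^ n := by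
        rw [map_pow]
        rfl
      change IsUnit (algebraMap S (loc S f hf) (⟨f, hf⟩ ^ n))
      rw [h3]
      exact h2.pow n
    · rintro ⟨z, n, hn⟩
      refine ⟨(⟨f ^ n * z, hn⟩, ⟨⟨f, hf⟩ ^ n, n, rfl⟩), Subtype.ext ?_⟩
      change z * ((algebraMap S (loc S f hf) (⟨f, hf⟩ ^ n) : loc S f hf) : K) = f ^ n * z
      rw [hval]
      exact mul_comm _ _
    · intro x y h
      refine ⟨1, ?_⟩
      have h1 : ((algebraMap S (loc S f hf) x : loc S f hf) : K) =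
          (algebraMap S (loc S f hf) y : loc S f hf) := by rw [h]
      rw [hval, hval] at h1
      rw [Subtype.ext h1]
  exact ⟨(IsLocalization.algEquiv (Submonoid.powers (⟨f, hf⟩ : S))
    (Localization.Away (⟨f, hf⟩ : S)) (loc S f hf)).restrictScalars k⟩

lemma loc_fg (h0 : f ≠ 0) (hS : S.FG) : (loc S f hf).FG := by
  rw [Subalgebra.fg_iff_finiteType] at hS ⊢
  obtain ⟨e⟩ := loc_iso S f hf h0
  have h1 : Algebra.FiniteType k (Localization.Away (⟨f, hf⟩ : S)) :=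
    Algebra.FiniteType.trans (S := S) inferInstance inferInstance
  exact Algebra.FiniteType.equiv h1 e

lemma loc_loc (g : K) (hg : g ∈ loc S f hf) (a : ℕ) (ha : f ^ a * g ∈ S) :
    loc S (f * (f ^ a * g)) (mul_mem hf ha) = loc (loc S f hf) g hg := by
  ext x
  constructor
  · rintro ⟨n, hn⟩
    refine ⟨n, ⟨n + a * n, ?_⟩⟩
    rwa [show f ^ (n + a * n) * (g ^ n * x) = (f * (f ^ a * g)) ^ n * x by
      rw [mul_pow, mul_pow, pow_add, pow_mul]; ring]
  · rintro ⟨n, N, hn⟩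
    refine ⟨n + N, ?_⟩
    have h1 := mul_mem (mul_mem (pow_mem hf (n + a * n)) (pow_mem ha N)) hn
    rwa [show f ^ (n + a * n) * (f ^ a * g) ^ N * (f ^ N * (g ^ n * x)) =
      (f * (f ^ a * g)) ^ (n + N) * x by
        rw [mul_pow, mul_pow, mul_pow, pow_add, pow_add, pow_add, pow_mul, ← pow_mul,
          ← pow_mul]; ring] at h1

variable {S f} (δ : Derivation k K K)

lemma der_pow_mul (hδ : δ f = 0) (n : ℕ) (x : K) : δ (f ^ n * x) = f ^ n * δ x := by
  rw [Derivation.leibniz, Derivation.leibniz_pow, hδ, smul_zero, smul_zero, smul_zero, add_zero,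
    smul_eq_mul]

lemma iter_pow_mul (hδ : δ f = 0) (n N : ℕ) (x : K) : (δ^[N]) (f ^ n * x) = f ^ n * (δ^[N]) x := by
  induction N with
  | zero => rfl
  | succ N ih => rw [Function.iterate_succ_apply', ih, der_pow_mul δ hδ,
      Function.iterate_succ_apply']

lemma loc_stable (hδ : δ f = 0) (hs : ∀ x ∈ S, δ x ∈ S) : ∀ x ∈ loc S f hf, δ x ∈ loc S f hf := by
  rintro x ⟨n, hn⟩
  exact ⟨n, by rw [← der_pow_mul δ hδ]; exact hs _ hn⟩

lemma loc_nil (h0 : f ≠ 0) (hδ : δ f = 0) (hs : ∀ x ∈ S, ∃ N : ℕ, (δ^[N]) x = 0) :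
    ∀ x ∈ loc S f hf, ∃ N : ℕ, (δ^[N]) x = 0 := by
  rintro x ⟨n, hn⟩
  obtain ⟨N, hN⟩ := hs _ hn
  rw [iter_pow_mul δ hδ] at hN
  exact ⟨N, (mul_eq_zero.mp hN).resolve_left (pow_ne_zero n h0)⟩

lemma loc_zero (h0 : f ≠ 0) (hs : ∀ x ∈ S, δ x = 0) : ∀ x ∈ loc S f hf, δ x = 0 := by
  rintro x ⟨n, hn⟩
  have h1 := hs _ hn
  rw [der_pow_mul δ (hs f hf)] at h1
  exact (mul_eq_zero.mp h1).resolve_left (pow_ne_zero n h0)

lemma cst_loc (T : Subalgebra k K) (g : K) (h0 : g ≠ 0) (hg : g ∈ T) (hδ : δ g = 0) :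
    cst δ (loc T g hg) = loc (cst δ T) g ⟨hg, hδ⟩ := by
  ext x
  constructor
  · rintro ⟨⟨n, hn⟩, hx⟩
    exact ⟨n, ⟨hn, by
      change δ (g ^ n * x) = 0
      rw [der_pow_mul δ hδ, show δ x = 0 from hx, mul_zero]⟩⟩
  · rintro ⟨n, hn, hx⟩
    refine ⟨⟨n, hn⟩, ?_⟩
    have h1 : δ (g ^ n * x) = 0 := hx
    rw [der_pow_mul δ hδ] at h1
    exact (mul_eq_zero.mp h1).resolve_left (pow_ne_zero n h0)

end loc

section gr

variable {W : G → Submodule k K}

lemma gr_comp {S : Subalgebra k K} (hS : Gr W S) {x : K} (hx : x ∈ S) :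
    ∃ v : G →₀ K, (∀ g, v g ∈ W g) ∧ (∀ g, v g ∈ S) ∧ ∑ g ∈ v.support, v g = x := by
  have h1 := hS hx
  rw [Submodule.mem_iSup_iff_exists_finsupp] at h1
  obtain ⟨v, hv, hx⟩ := h1
  exact ⟨v, fun g => (hv g).1, fun g => (hv g).2, hx⟩

lemma gr_of {S : Subalgebra k K} {ι : Type} (s : Finset ι) (v : ι → K)
    (h1 : ∀ i ∈ s, ∃ g, v i ∈ W g) (h2 : ∀ i ∈ s, v i ∈ S) :
    ∑ i ∈ s, v i ∈ ⨆ g, W g ⊓ Subalgebra.toSubmodule S := by
  refine Submodule.sum_mem _ fun i hi => ?_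
  obtain ⟨g, hg⟩ := h1 i hi
  exact Submodule.mem_iSup_of_mem g ⟨hg, h2 i hi⟩

variable [AddCommGroup G] (hW : Wts W)

include hW

lemma w_pow {g : G} {x : K} (hx : x ∈ W g) (n : ℕ) : x ^ n ∈ W (n • g) := by
  induction n with
  | zero => rw [pow_zero, zero_smul]; exact hW.one
  | succ n ih => rw [pow_succ, succ_nsmul]; exact hW.mul ih hx

lemma w_zpow {g : G} {x : K} (hx : x ∈ W g) (n : ℤ) : x ^ n ∈ W (n • g) := by
  cases n with
  | ofNat n => simpa using w_pow hW hx n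
  | negSucc n =>
    rw [zpow_negSucc, negSucc_zsmul]
    exact hW.inv (w_pow hW hx _)

lemma loc_gr {S : Subalgebra k K} (hS : Gr W S) {f : K} (hf : f ∈ S) (h0 : f ≠ 0) {g : G}
    (hg : f ∈ W g) : Gr W (loc S f hf) := by
  rintro x ⟨n, hn⟩
  obtain ⟨v, hv1, hv2, hv3⟩ := gr_comp hS hn
  have h1 : x = ∑ h ∈ v.support, (f ^ n)⁻¹ * v h := by
    rw [← Finset.mul_sum, hv3, inv_mul_cancel_left₀ (pow_ne_zero n h0)]
  rw [h1]
  refine gr_of _ _ (fun h _ => ⟨_, hW.mul (hW.inv (w_pow hW hg n)) (hv1 h)⟩) (fun h _ => ?_)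
  exact ⟨n, by rw [mul_inv_cancel_left₀ (pow_ne_zero n h0)]; exact hv2 h⟩

/-- homogeneous derivations act on components -/
lemma der_comp (δ : Derivation k K K) {e : G} (he : ∀ g, ∀ x ∈ W g, δ x ∈ W (g + e)) (v : G →₀ K)
    (hv : ∀ g, v g ∈ W g) (h : δ (∑ g ∈ v.support, v g) = 0) (g : G) : δ (v g) = 0 := by
  classical
  let w : G →₀ K := (v.mapRange δ (map_zero δ)).mapDomain (fun g => g + e)
  have hinj : Function.Injective fun g : G => g + e := add_left_injective e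
  have hw1 : ∀ g, w (g + e) = δ (v g) := by
    intro g
    have h1 := Finsupp.mapDomain_apply hinj (v.mapRange δ (map_zero δ)) g
    rw [Finsupp.mapRange_apply] at h1
    exact h1
  have hw2 : ∀ g, w g ∈ W g := by
    intro g
    have h1 := hw1 (g - e)
    rw [sub_add_cancel] at h1
    rw [h1]
    have h2 := he _ _ (hv (g - e))
    rwa [sub_add_cancel] at h2
  have hw3 : ∑ g ∈ w.support, w g = 0 := by
    have h1 : ∑ g ∈ w.support, w g = w.sum fun _ y => y := rfl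
    rw [h1, Finsupp.sum_mapDomain_index_inj hinj, Finsupp.sum_mapRange_index (fun _ => rfl),
      ← h, map_sum]
    rfl
  have hw4 := hW.indep w hw2 hw3
  rw [← hw1, hw4]
  rfl

lemma cst_gr {T : Subalgebra k K} (hT : Gr W T) (δ : Derivation k K K) {e : G}
    (he : ∀ g, ∀ x ∈ W g, δ x ∈ W (g + e)) : Gr W (cst δ T) := by
  rintro x ⟨hx1, hx2⟩
  obtain ⟨v, hv1, hv2, hv3⟩ := gr_comp hT hx1
  have h1 := der_comp hW δ he v hv1 (by rw [hv3]; exact hx2)
  rw [← hv3]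
  exact gr_of _ _ (fun g _ => ⟨g, hv1 g⟩) (fun g _ => ⟨hv2 g, h1 g⟩)

/-- a homogeneous element which is a sum is one of the components -/
lemma comp_eq {g : G} (v : G →₀ K) (hv : ∀ h, v h ∈ W h) (hx : ∑ h ∈ v.support, v h ∈ W g) :
    ∑ h ∈ v.support, v h = v g := by
  classical
  set x := ∑ h ∈ v.support, v h with hxdef
  let w : G →₀ K := v - Finsupp.single g x
  have hw1 : ∀ h, w h ∈ W h := by
    intro h
    have h1 : w h = v h - Finsupp.single g x h := rfl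
    rw [h1]
    refine sub_mem (hv h) ?_
    rw [Finsupp.single_apply]
    split_ifs with h2
    · rw [← h2]; exact hx
    · exact zero_mem _
  have hw2 : ∑ h ∈ w.support, w h = 0 := by
    have h1 : ∑ h ∈ w.support, w h = w.sum fun _ y => y := rfl
    have h2 : (v.sum fun _ y => y) = x := rfl
    rw [h1, Finsupp.sum_sub_index (fun _ _ _ => rfl), h2, Finsupp.sum_single_index rfl, sub_self]
  have hw3 := DFunLike.congr_fun (hW.indep w hw1 hw2) g
  have h1 : w g = v g - x := by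
    change v g - Finsupp.single g x g = _
    rw [Finsupp.single_eq_same]
  rw [h1] at hw3
  exact (sub_eq_zero.mp hw3).symm

end gr

end Pool.Agent.V5helper52.TU
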